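import Mathlib

namespace Pool.Agent.MP_c6cf52_lc

open Cardinal Set

/-! ### General density lemmas for sigma-closed preorders -/

section Closed

variable {P : Type*} [Preorder P]

theorem baire (cl : ∀ s : ℕ → P, Antitone s → ∃ q, ∀ n, q ≤ s n) {J : Type*} [Countable J]
    (D : J → P → Prop) (dense : ∀ j p, ∃ q ≤ p, D j q)
    (mono : ∀ j p q, q ≤ p → D j p → D j q) (p : P) : ∃ q ≤ p, ∀ j, D j q := by
  rcases isEmpty_or_nonempty J with h | h
  · exact ⟨p, le_rfl, fun j => h.elim j⟩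
  obtain ⟨e, he⟩ := exists_surjective_nat J
  choose f hf hD using dense
  let s : ℕ → P := fun n => Nat.rec p (fun n q => f (e n) q) n
  obtain ⟨q, hq⟩ := cl s (antitone_nat_of_succ_le fun n => hf _ _)
  refine ⟨q, hq 0, fun j => ?_⟩
  obtain ⟨n, rfl⟩ := he j
  exact mono _ _ _ (hq (n + 1)) (hD _ _)

theorem decide_vals (cl : ∀ s : ℕ → P, Antitone s → ∃ q, ∀ n, q ≤ s n) {J K : Type*} [Countable J]
    [Nonempty K] (F : P → J → K → Prop) (mono : ∀ p q j k, q ≤ p → F p j k → F q j k) (p : P) :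
    ∃ q ≤ p, ∃ h : J → K, ∀ j r k, r ≤ q → F r j k → F q j (h j) := by
  classical
  obtain ⟨q, hq, H⟩ := baire cl (fun j q => (∃ k, F q j k) ∨ ∀ r ≤ q, ∀ k, ¬ F r j k)
    (fun j p => by
      by_cases h : ∀ r ≤ p, ∀ k, ¬ F r j k
      · exact ⟨p, le_rfl, Or.inr h⟩
      · push Not at h
        obtain ⟨r, hr, k, h⟩ := h
        exact ⟨r, hr, Or.inl ⟨k, h⟩⟩)
    (fun j p q hq h => h.imp (fun ⟨k, h⟩ => ⟨k, mono _ _ _ _ hq h⟩)
      (fun h r hr => h r (hr.trans hq))) p
  refine ⟨q, hq, fun j => if h : ∃ k, F q j k then h.choose else Classical.arbitrary K,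
    fun j r k hr hF => ?_⟩
  rcases H j with h | h
  · simp only [dif_pos h]; exact h.choose_spec
  · exact absurd hF (h r hr k)

end Closed

/-- Countably many injective sequences can be split simultaneously. -/
theorem exists_split {X : Type*} (S : Set (ℕ → X)) (hS : S.Countable)
    (inj : ∀ s ∈ S, Function.Injective s) :
    ∃ e : X → Bool, ∀ s ∈ S, ∀ i, ∃ n, e (s n) = i := by
  classical
  rcases S.eq_empty_or_nonempty with rfl | hne
  · exact ⟨fun _ => true, by simp⟩
  have := hS.to_subtype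
  have := hne.to_subtype
  obtain ⟨f, hf⟩ := exists_surjective_nat (S × Bool)
  have key : ∀ (k : ℕ) (l : Finset X), ∃ n, (f k).1.1 n ∉ l := fun k l => by
    have := (Set.infinite_range_of_injective (inj _ (f k).1.2)).exists_notMem_finset l
    obtain ⟨_, ⟨n, rfl⟩, h⟩ := this
    exact ⟨n, h⟩
  choose c hc using key
  let L : ℕ → Finset X := fun k => Nat.rec ∅ (fun k l => insert ((f k).1.1 (c k l)) l) k
  let x : ℕ → X := fun k => (f k).1.1 (c k (L k))
  have hL : ∀ j k, j < k → x j ∈ L k := by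
    intro j k h
    induction k, h using Nat.le_induction with
    | base => exact Finset.mem_insert_self _ _
    | succ k _ ih => exact Finset.mem_insert_of_mem ih
  have hx : Function.Injective x := by
    have H : ∀ j k, j < k → x j ≠ x k := fun j k h e => hc k (L k) (by
      have := hL j k h
      rwa [e] at this)
    intro j k e
    rcases lt_trichotomy j k with h | h | h
    exacts [absurd e (H _ _ h), h, absurd e.symm (H _ _ h)]
  refine ⟨fun y => if h : ∃ k, x k = y then (f h.choose).2 else true, fun s hs i => ?_⟩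
  obtain ⟨k, hk⟩ := hf (⟨s, hs⟩, i)
  refine ⟨c k (L k), ?_⟩
  have e : x k = s (c k (L k)) := by simp only [x, hk]
  have h : ∃ k', x k' = s (c k (L k)) := ⟨k, e⟩
  simp only [dif_pos h]
  rw [hx (h.choose_spec.trans e.symm), hk]

/-! ### The well-order of type the successor of the continuum -/

abbrev XX : Type := (Order.succ continuum.{0}).ord.ToType

theorem mk_Iio_le (x : XX) : #(Iio x) ≤ 𝔠 :=
  Order.lt_succ_iff.1 (by simpa using mk_Iio_lt x (by simp))

theorem mk_Iic_le (x : XX) : #(Iic x) ≤ 𝔠 := by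
  rw [← Iio_insert]
  refine mk_insert_le.trans ?_
  refine (add_le_add (mk_Iio_le x) (one_le_aleph0.trans aleph0_le_continuum)).trans ?_
  simp

theorem mk_iUnion_le_c {α ι : Type} (hι : #ι ≤ 𝔠) (f : ι → Set α) (hf : ∀ i, #(f i) ≤ 𝔠) :
    #(⋃ i, f i) ≤ 𝔠 := by
  refine mk_iUnion_le_sum_mk.trans ((sum_le_sum _ _ hf).trans ?_)
  rw [sum_const']
  exact (mul_le_mul_left hι _).trans (by simp)

theorem exists_bound (s : Set XX) (hs : #s ≤ 𝔠) : ∃ b, ∀ x ∈ s, x < b := by
  by_contra h
  push Not at h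
  have h₁ : #(⋃ x : s, Iic x.1) ≤ 𝔠 := mk_iUnion_le_c hs _ fun x => mk_Iic_le _
  have h₂ : (⋃ x : s, Iic x.1) = Set.univ := by
    refine eq_univ_of_forall fun b => ?_
    obtain ⟨x, hx, hb⟩ := h b
    exact mem_iUnion.2 ⟨⟨x, hx⟩, hb⟩
  rw [h₂, mk_univ, mk_ord_toType] at h₁
  exact (Order.lt_succ _).not_ge h₁

open Classical in
noncomputable def bd (s : Set XX) : XX :=
  if h : #s ≤ 𝔠 then (exists_bound s h).choose else (exists_bound ∅ (by simp)).choose

theorem lt_bd {s : Set XX} (hs : #s ≤ 𝔠) {x : XX} (hx : x ∈ s) : x < bd s := by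
  unfold bd
  rw [dif_pos hs]
  exact (exists_bound s hs).choose_spec x hx

theorem ct_le {α : Type} {s : Set α} (h : s.Countable) : #s ≤ 𝔠 :=
  h.le_aleph0.trans aleph0_le_continuum

theorem exists_unc : ∃ x : XX, ¬ (Iio x).Countable := by
  obtain ⟨s, hs⟩ : ∃ s : Set XX, #s = 𝔠 := by
    refine le_mk_iff_exists_set.1 ?_
    rw [mk_ord_toType]
    exact Order.le_succ _
  refine ⟨bd s, fun h => ?_⟩
  have : s.Countable := h.mono fun x hx => lt_bd hs.le hx
  have := this.le_aleph0
  rw [hs] at this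
  exact aleph0_lt_continuum.not_ge this

/-- The first uncountable element. -/
noncomputable def w1 : XX := wellFounded_lt.min {x | ¬ (Iio x).Countable} exists_unc

theorem w1_unc : ¬ (Iio w1).Countable :=
  wellFounded_lt.min_mem {x : XX | ¬ (Iio x).Countable} exists_unc

theorem ct_of_lt {y : XX} (h : y < w1) : (Iio y).Countable := by
  by_contra h'
  exact wellFounded_lt.not_lt_min {x : XX | ¬ (Iio x).Countable} h' h

theorem exists_new {s : Set XX} (hs : s.Countable) : ∃ x < w1, x ∉ s := by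
  by_contra h
  push Not at h
  exact w1_unc (hs.mono h)

theorem exists_between {y : XX} (h : y < w1) : ∃ x, y < x ∧ x < w1 := by
  have : (Iic y).Countable := by
    rw [← Iio_insert]; exact (ct_of_lt h).insert _
  obtain ⟨x, hx, h⟩ := exists_new this
  exact ⟨x, not_le.1 h, hx⟩

instance : Nonempty (Iio w1) := by
  obtain ⟨x, hx, -⟩ := exists_new countable_empty
  exact ⟨⟨x, hx⟩⟩

/-- An increasing sequence starting at `w1`. -/
noncomputable def uu : ℕ → XX := fun n => Nat.rec w1 (fun _ x => bd {x}) n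

theorem uu_mono : StrictMono uu :=
  strictMono_nat_of_lt_succ fun _ => lt_bd (ct_le (countable_singleton _)) rfl

noncomputable def tt : XX := bd (range uu)

theorem uu_lt (n : ℕ) : uu n < tt := lt_bd (ct_le (countable_range _)) ⟨n, rfl⟩

theorem w1_le_uu (n : ℕ) : w1 ≤ uu n := uu_mono.monotone (Nat.zero_le n)

theorem mk_ct_subsets {α : Type} (s : Set α) (hs : #s ≤ 𝔠) :
    #{t : Set α | t ⊆ s ∧ t.Countable} ≤ 𝔠 := by
  have h := mk_bounded_subset_le s ℵ₀
  simp only [le_aleph0_iff_set_countable] at h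
  refine h.trans ?_
  refine (power_le_power_right (max_le hs aleph0_le_continuum)).trans ?_
  simp

theorem mk_prod_le_c {α β : Type} {s : Set α} {t : Set β} (hs : #s ≤ 𝔠) (ht : #t ≤ 𝔠) :
    #(s ×ˢ t : Set (α × β)) ≤ 𝔠 := by
  rw [mk_setProd]
  exact (mul_le_mul' hs ht).trans (by simp)

/-- A proper initial segment closed under a function and under countable suprema. -/
theorem exists_closed (F : XX → XX) :
    ∃ I : Set XX, (∀ x y, x ≤ y → y ∈ I → x ∈ I) ∧ (∃ b, b ∉ I) ∧
      ∀ r : Set XX, r.Countable → r ⊆ I → ∃ η, (∀ x ∈ r, x < η) ∧ F η ∈ I := by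
  let β : Bool → Type := fun b => cond b ℕ Empty
  have hβ : ∀ b, Countable (β b) := fun b => by
    cases b
    · exact inferInstanceAs (Countable Empty)
    · exact inferInstanceAs (Countable ℕ)
  have hW : #(WType β) ≤ 𝔠 := by
    refine WType.cardinalMk_le_of_le ((sum_le_sum _ (fun _ => 𝔠) fun b => ?_).trans ?_)
    · have := hβ b
      exact (power_le_power_left continuum_ne_zero mk_le_aleph0).trans (by simp)
    · rw [sum_const']
      exact (mul_le_mul_left (mk_le_aleph0.trans aleph0_le_continuum) _).trans (by simp)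
  let ev : WType β → XX := WType.elim XX (fun z => F (bd (range z.2)))
  have hev : ∀ f : ℕ → WType β, ev (WType.mk true f) = F (bd (range fun n => ev (f n))) :=
    fun f => rfl
  refine ⟨{x | ∃ w, x ≤ ev w}, fun x y h ⟨w, hw⟩ => ⟨w, h.trans hw⟩,
    ⟨bd (range ev), fun ⟨w, hw⟩ => ?_⟩, fun r hr hI => ?_⟩
  · exact (lt_bd (mk_range_le.trans hW) ⟨w, rfl⟩).not_ge hw
  · obtain ⟨f, hf⟩ : ∃ f : ℕ → WType β, ∀ x ∈ r, ∃ n, x ≤ ev (f n) := by
      rcases r.eq_empty_or_nonempty with rfl | hne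
      · exact ⟨fun _ => WType.mk false Empty.elim, by simp⟩
      · obtain ⟨e, rfl⟩ := hr.exists_eq_range hne
        choose f hf using fun n => hI (mem_range_self n)
        exact ⟨f, by rintro _ ⟨n, rfl⟩; exact ⟨n, hf n⟩⟩
    refine ⟨bd (range fun n => ev (f n)), fun x hx => ?_, WType.mk true f, (hev f).ge⟩
    obtain ⟨n, hn⟩ := hf x hx
    exact hn.trans_lt (lt_bd (ct_le (countable_range _)) ⟨n, rfl⟩)

end Pool.Agent.MP_c6cf52_lc
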