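import Pool.Agent.MP_c6cf52_lc.Tools

namespace Pool.Agent.MP_c6cf52_lc

open Name

universe u v w

theorem Fml.exists_bound {M : Type v} (E : M → M → Prop) : ∀ φ : Fml, ∃ n, ∀ w w' : ℕ → M,
    (∀ k < n, w k = w' k) → (Sat E φ w ↔ Sat E φ w') := by
  intro φ
  induction φ with
  | mem i j =>
    exact ⟨max i j + 1, fun w w' h => by
      simp only [Sat, h i (by omega), h j (by omega)]⟩
  | eq i j =>
    exact ⟨max i j + 1, fun w w' h => by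
      simp only [Sat, h i (by omega), h j (by omega)]⟩
  | bot => exact ⟨0, fun _ _ _ => Iff.rfl⟩
  | imp φ ψ ih₁ ih₂ =>
    obtain ⟨n, h₁⟩ := ih₁
    obtain ⟨m, h₂⟩ := ih₂
    exact ⟨max n m, fun w w' h => by
      simp only [Sat, h₁ w w' (fun k hk => h k (by omega)), h₂ w w' (fun k hk => h k (by omega))]⟩
  | all φ ih =>
    obtain ⟨n, h₁⟩ := ih
    refine ⟨n, fun w w' h => forall_congr' fun x => h₁ _ _ fun k hk => ?_⟩
    cases k with
    | zero => rfl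
    | succ k => exact h k (by omega)

def mix {α : Type v} (w p : ℕ → α) : ℕ → α := fun k => if k % 2 = 0 then w (k / 2) else p (k / 2)

theorem mix_even {α : Type v} (w p : ℕ → α) (k : ℕ) : mix w p (2 * k) = w k := by
  simp [mix]

theorem mix_odd {α : Type v} (w p : ℕ → α) (k : ℕ) : mix w p (2 * k + 1) = p k := by
  have : (2 * k + 1) / 2 = k := by omega
  simp [mix, this]

theorem mix_cases {α : Type v} {f h : ℕ → α} (h₁ : ∀ k, f (2 * k) = h (2 * k))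
    (h₂ : ∀ k, f (2 * k + 1) = h (2 * k + 1)) : f = h := by
  funext k
  rcases Nat.even_or_odd' k with ⟨j, rfl | rfl⟩
  exacts [h₁ j, h₂ j]

namespace Gen

variable {P : Type u} [Preorder P] [OrderTop P]

/-- Definable with parameters in the generic model. -/
def PD (g : Gen P) (Ψ : (ℕ → g.M) → Prop) : Prop :=
  ∃ (φ : Fml) (p : ℕ → g.M), ∀ w, Sat g.E φ (mix w p) ↔ Ψ w

variable {g : Gen P}

namespace PD

variable {Φ Ψ : (ℕ → g.M) → Prop} {Θ : (ℕ → g.M) → g.M → Prop}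

theorem udef {Ψ : ∀ (M : Type (u + 1)), (M → M → Prop) → (ℕ → M) → Prop} (h : UDef Ψ) :
    g.PD (Ψ g.M g.E) := by
  obtain ⟨φ, h⟩ := h
  refine ⟨φ.rename (fun k => 2 * k), fun _ => g.v emp, fun w => ?_⟩
  rw [sat_rename, h]
  simp only [mix_even]

theorem const (i : ℕ) (c : g.M) : g.PD (fun w => w i = c) :=
  ⟨.eq (2 * i) (2 * 0 + 1), fun _ => c, fun w => by simp only [Sat, mix_even, mix_odd]⟩

theorem congr (h : g.PD Φ) (e : ∀ w, Φ w ↔ Ψ w) : g.PD Ψ := by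
  obtain ⟨φ, p, h⟩ := h
  exact ⟨φ, p, fun w => (h w).trans (e w)⟩

theorem imp (h₁ : g.PD Φ) (h₂ : g.PD Ψ) : g.PD (fun w => Φ w → Ψ w) := by
  obtain ⟨φ, p, h₁⟩ := h₁
  obtain ⟨ψ, q, h₂⟩ := h₂
  refine ⟨.imp (φ.rename (mix (fun k => 2 * k) (fun k => 2 * (2 * k) + 1)))
    (ψ.rename (mix (fun k => 2 * k) (fun k => 2 * (2 * k + 1) + 1))), mix p q, fun w => ?_⟩
  simp only [Sat, sat_rename, ← h₁, ← h₂]
  have e₁ : (fun k => mix w (mix p q) (mix (fun k => 2 * k) (fun k => 2 * (2 * k) + 1) k)) =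
      mix w p := mix_cases (fun k => by simp only [mix_even]) (fun k => by
        simp only [mix_even, mix_odd])
  have e₂ : (fun k => mix w (mix p q) (mix (fun k => 2 * k) (fun k => 2 * (2 * k + 1) + 1) k)) =
      mix w q := mix_cases (fun k => by simp only [mix_even]) (fun k => by
        simp only [mix_odd])
  rw [e₁, e₂]

theorem all (h : g.PD (fun w => Θ (fun k => w (k + 1)) (w 0))) : g.PD (fun w => ∀ x, Θ w x) := by
  obtain ⟨φ, p, h⟩ := h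
  refine ⟨.all (φ.rename (mix (cons 0 (fun k => 2 * k + 1)) (fun k => 2 * k + 1 + 1))), p,
    fun w => ?_⟩
  simp only [Sat, sat_rename]
  refine forall_congr' fun x => ?_
  have e : (fun k => cons x (mix w p) (mix (cons 0 (fun k => 2 * k + 1))
      (fun k => 2 * k + 1 + 1) k)) = mix (cons x w) p := by
    refine mix_cases (fun k => ?_) (fun k => ?_)
    · simp only [mix_even]
      cases k with
      | zero => rfl
      | succ k => simp only [cons_succ, mix_even]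
    · simp only [mix_odd, cons_succ]
  rw [e, h]
  rfl

theorem rename (h : g.PD Φ) (f : ℕ → ℕ) : g.PD (fun w => Φ (fun k => w (f k))) := by
  obtain ⟨φ, p, h⟩ := h
  refine ⟨φ.rename (mix (fun k => 2 * f k) (fun k => 2 * k + 1)), p, fun w => ?_⟩
  have e : (fun k => mix w p (mix (fun k => 2 * f k) (fun k => 2 * k + 1) k)) =
      mix (fun k => w (f k)) p :=
    mix_cases (fun k => by simp only [mix_even]) (fun k => by simp only [mix_odd])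
  rw [sat_rename, e]
  exact h _

theorem bot : g.PD (fun _ => False) := udef UDef.bot

theorem not (h : g.PD Φ) : g.PD (fun w => ¬ Φ w) := h.imp bot

theorem and (h₁ : g.PD Φ) (h₂ : g.PD Ψ) : g.PD (fun w => Φ w ∧ Ψ w) :=
  (h₁.imp h₂.not).not.congr fun _ => by tauto

theorem or (h₁ : g.PD Φ) (h₂ : g.PD Ψ) : g.PD (fun w => Φ w ∨ Ψ w) :=
  (h₁.not.imp h₂).congr fun _ => by tauto

theorem ex (h : g.PD (fun w => Θ (fun k => w (k + 1)) (w 0))) : g.PD (fun w => ∃ x, Θ w x) :=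
  (all (Θ := fun w x => ¬ Θ w x) h.not).not.congr fun _ => by simp

theorem mem (i j : ℕ) : g.PD (fun w => g.E (w i) (w j)) := udef (UDef.mem i j)

theorem eq (i j : ℕ) : g.PD (fun w => w i = w j) := udef (UDef.eq i j)

theorem pr (i j k : ℕ) : g.PD (fun w => w i = pr (w j) (w k)) :=
  (udef (UDef.isPair i j k)).congr fun _ => isPair_iff

theorem exists_fml (h : g.PD Φ) (n : ℕ) : ∃ (φ : Fml) (l : List g.M), ∀ w : ℕ → g.M,
    (∀ k, w (k + n) = env (g.v emp) l k) →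
      (Sat g.E φ w ↔ Φ (fun k => if k < n then w k else w 0)) := by
  obtain ⟨φ, p, h⟩ := h
  obtain ⟨m, hm⟩ := φ.exists_bound g.E
  refine ⟨φ.rename (mix (fun k => if k < n then k else 0) (fun k => k + n)),
    List.ofFn (fun i : Fin m => p i), fun w hw => ?_⟩
  rw [sat_rename, ← h]
  refine hm _ _ fun k hk => ?_
  rcases Nat.even_or_odd' k with ⟨j, rfl | rfl⟩
  · simp only [mix_even]
    split_ifs <;> rfl
  · simp only [mix_odd, hw, env]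
    rw [List.getD_eq_getElem _ _ (by simp; omega)]
    simp

end PD

/-- Definable subsets of the model. -/
def D1 (g : Gen P) (S : g.M → Prop) : Prop := g.PD (fun w => S (w 0))

theorem D1.at {S : g.M → Prop} (h : g.D1 S) (i : ℕ) : g.PD (fun w => S (w i)) :=
  PD.rename h (fun _ => i)

theorem D1.sep {S : g.M → Prop} (h : g.D1 S) (a : g.M) : ∃ b, ∀ x, g.E x b ↔ g.E x a ∧ S x := by
  obtain ⟨φ, l, h⟩ := PD.exists_fml h 1
  obtain ⟨b, hb⟩ := sep_fml φ l a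
  exact ⟨b, fun x => (hb x).trans (and_congr_right fun _ => h _ fun _ => rfl)⟩

theorem D1.coll {S : g.M → Prop} (h : g.D1 S) (a : g.M) :
    ∃ c, ∀ x, g.E x a → (∃ y, S (pr x y)) → ∃ y, g.E y c ∧ S (pr x y) := by
  have h' : g.PD (fun w => S (pr (w 1) (w 0))) :=
    (PD.ex (Θ := fun w q => q = pr (w 1) (w 0) ∧ S q) ((PD.pr _ _ _).and (h.at _))).congr
      fun w => by simp
  obtain ⟨φ, l, h'⟩ := PD.exists_fml h' 2
  obtain ⟨c, hc⟩ := collection φ l a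
  have e : ∀ x y, Sat g.E φ (cons y (cons x (env (g.v emp) l))) ↔ S (pr x y) :=
    fun x y => h' _ fun _ => rfl
  simp only [e] at hc
  exact ⟨c, hc⟩

/-- Types coded by a definable class of elements of the model. -/
class Cd (g : Gen P) (α : Type v) where
  ι : α → g.M
  inj : Function.Injective ι
  rng : g.D1 (fun x => ∃ a, ι a = x)

/-- Coded types whose codes lie in a set of the model. -/
class Bd (g : Gen P) (α : Type v) [Cd g α] : Prop where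
  bd : ∃ A : g.M, ∀ a : α, g.E (Cd.ι a) A

open Cd

instance : Cd g g.M where
  ι := id
  inj := Function.injective_id
  rng := (PD.eq 0 0).congr fun w => by simp

@[simp] theorem ι_M (x : g.M) : (ι x : g.M) = x := rfl

noncomputable instance {α : Type v} {β : Type w} [Cd g α] [Cd g β] : Cd g (α × β) where
  ι := fun z => pr (ι z.1) (ι z.2)
  inj := fun a b h => Prod.ext (inj (pr_inj.1 h).1) (inj (pr_inj.1 h).2)
  rng := by
    have : g.PD (fun w => ∃ x y, w 0 = pr x y ∧ (∃ a : α, ι a = x) ∧ ∃ b : β, ι b = y) :=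
      PD.ex (PD.ex ((PD.pr _ _ _).and ((rng.at _).and (rng.at _))))
    refine this.congr fun w => ⟨?_, ?_⟩
    · rintro ⟨_, _, h, ⟨a, rfl⟩, b, rfl⟩
      exact ⟨(a, b), h.symm⟩
    · rintro ⟨⟨a, b⟩, h⟩
      exact ⟨_, _, h.symm, ⟨a, rfl⟩, b, rfl⟩

theorem ι_prod {α : Type v} {β : Type w} [Cd g α] [Cd g β] (z : α × β) :
    (ι z : g.M) = pr (ι z.1) (ι z.2) := rfl

theorem exists_pr_bound (A B : g.M) : ∃ C, ∀ a b, g.E a A → g.E b B → g.E (pr a b) C := by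
  obtain ⟨c, hc⟩ := exists_upair A B
  obtain ⟨U, hU⟩ := exists_union c
  obtain ⟨Q, hQ⟩ := exists_power U
  obtain ⟨R, hR⟩ := exists_power Q
  refine ⟨R, fun a b ha hb => (hR _).2 fun z hz => (hQ _).2 fun y hy => (hU _).2 ?_⟩
  rcases (isPair_pr a b z).1 hz with h | h
  · exact ⟨A, (h y).1 hy ▸ ha, (hc _).2 (Or.inl rfl)⟩
  · rcases (h y).1 hy with rfl | rfl
    exacts [⟨A, ha, (hc _).2 (Or.inl rfl)⟩, ⟨B, hb, (hc _).2 (Or.inr rfl)⟩]

instance {α : Type v} {β : Type w} [Cd g α] [Cd g β] [Bd g α] [Bd g β] : Bd g (α × β) where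
  bd := by
    obtain ⟨A, hA⟩ := Bd.bd (g := g) (α := α)
    obtain ⟨B, hB⟩ := Bd.bd (g := g) (α := β)
    obtain ⟨C, hC⟩ := exists_pr_bound A B
    exact ⟨C, fun z => hC _ _ (hA _) (hB _)⟩

/-- Definable predicates on a coded type. -/
def Df (g : Gen P) {α : Type v} [Cd g α] (Q : α → Prop) : Prop :=
  g.D1 (fun x => ∃ a, ι a = x ∧ Q a)

/-- Definable functions between coded types. -/
def Tm (g : Gen P) {α : Type v} {β : Type w} [Cd g α] [Cd g β] (f : α → β) : Prop :=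
  g.Df (fun z : α × β => z.2 = f z.1)

section Closure

variable {Γ : Type*} {α : Type*} {β : Type*} [Cd g Γ] [Cd g α] [Cd g β]
variable {Q R : Γ → Prop}

theorem Df.congr (h : g.Df Q) (e : ∀ x, Q x ↔ R x) : g.Df R :=
  PD.congr h fun _ => by simp only [e]

theorem Df.ofD1 {S : g.M → Prop} (h : g.D1 S) : g.Df (fun x : Γ => S (ι x)) :=
  (PD.and (rng (α := Γ)) h).congr fun w => by
    constructor
    · rintro ⟨⟨a, e⟩, h⟩
      exact ⟨a, e, by show S (ι a); rw [e]; exact h⟩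
    · rintro ⟨a, e, h⟩
      exact ⟨⟨a, e⟩, by show S (w 0); rw [← show ι a = w 0 from e]; exact h⟩

theorem Df.not (h : g.Df Q) : g.Df (fun x => ¬ Q x) :=
  (Df.ofD1 (S := fun y => ¬ ∃ a, ι a = y ∧ Q a) (PD.not h)).congr fun x => by
    simp [inj.eq_iff]

theorem Df.and (h₁ : g.Df Q) (h₂ : g.Df R) : g.Df (fun x => Q x ∧ R x) :=
  (Df.ofD1 (S := fun y => (∃ a, ι a = y ∧ Q a) ∧ ∃ a, ι a = y ∧ R a) (PD.and h₁ h₂)).congr
    fun x => by simp [inj.eq_iff]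

theorem Df.or (h₁ : g.Df Q) (h₂ : g.Df R) : g.Df (fun x => Q x ∨ R x) :=
  (h₁.not.and h₂.not).not.congr fun _ => by tauto

theorem Df.imp (h₁ : g.Df Q) (h₂ : g.Df R) : g.Df (fun x => Q x → R x) :=
  (h₁.and h₂.not).not.congr fun _ => by tauto

theorem Df.iff (h₁ : g.Df Q) (h₂ : g.Df R) : g.Df (fun x => Q x ↔ R x) :=
  ((h₁.imp h₂).and (h₂.imp h₁)).congr fun _ => by tauto

theorem Df.ex {Q : Γ → α → Prop} (h : g.Df (fun z : Γ × α => Q z.1 z.2)) :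
    g.Df (fun x => ∃ y, Q x y) := by
  have : g.D1 (fun x => ∃ y q, q = pr x y ∧ ∃ a : Γ × α, ι a = q ∧ Q a.1 a.2) :=
    PD.ex (PD.ex ((PD.pr _ _ _).and (D1.at h _)))
  refine (Df.ofD1 this).congr fun x => ⟨?_, ?_⟩
  · rintro ⟨y, _, rfl, ⟨a, b⟩, e, h⟩
    obtain rfl := inj (pr_inj.1 e).1
    exact ⟨b, h⟩
  · rintro ⟨y, h⟩
    exact ⟨_, _, rfl, (x, y), rfl, h⟩

theorem Df.all {Q : Γ → α → Prop} (h : g.Df (fun z : Γ × α => Q z.1 z.2)) :
    g.Df (fun x => ∀ y, Q x y) :=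
  (Df.ex (Q := fun x y => ¬ Q x y) h.not).not.congr fun _ => by simp

theorem Df.ofPD {S : g.M → g.M → Prop} (h : g.PD (fun w => S (w 0) (w 1))) :
    g.Df (fun z : α × β => S (ι z.1) (ι z.2)) := by
  have : g.D1 (fun q => ∃ x y, q = pr x y ∧ S x y) :=
    PD.ex (PD.ex ((PD.pr _ _ _).and (h.rename (cons 1 (fun _ => 0)))))
  refine (Df.ofD1 this).congr fun z => ⟨?_, fun h => ⟨_, _, rfl, h⟩⟩
  rintro ⟨x, y, e, h⟩
  obtain ⟨rfl, rfl⟩ := pr_inj.1 e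
  exact h

theorem Df.comp {Q : α → Prop} {f : Γ → α} (h : g.Df Q) (hf : g.Tm f) :
    g.Df (fun x => Q (f x)) := by
  have h' : g.Df (fun z : Γ × α => Q z.2) :=
    (Df.ofPD (S := fun _ y => ∃ a, ι a = y ∧ Q a) (D1.at h 1)).congr fun z => by
      simp [inj.eq_iff]
  exact (Df.ex (Q := fun x y => y = f x ∧ Q y) (Df.and hf h')).congr fun x => by simp

theorem Tm.ofPD {f : α → β} {S : g.M → g.M → Prop} (h : g.PD (fun w => S (w 0) (w 1)))
    (e : ∀ a b, S (ι a) (ι b) ↔ b = f a) : g.Tm f :=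
  (Df.ofPD h).congr fun z => e z.1 z.2

theorem Tm.id : g.Tm (fun x : Γ => x) :=
  Tm.ofPD (S := fun x y => y = x) (PD.eq _ _) fun _ _ => inj.eq_iff

theorem Tm.const (c : α) : g.Tm (fun _ : Γ => c) :=
  Tm.ofPD (S := fun _ y => y = ι c) (PD.const _ _) fun _ _ => inj.eq_iff

theorem Tm.fst' : g.Tm (fun z : α × β => z.1) :=
  Tm.ofPD (S := fun x y => ∃ t, x = pr y t) (PD.ex (PD.pr _ _ _)) fun a b => by
    simp [ι_prod, pr_inj, inj.eq_iff, eq_comm]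

theorem Tm.snd' : g.Tm (fun z : α × β => z.2) :=
  Tm.ofPD (S := fun x y => ∃ t, x = pr t y) (PD.ex (PD.pr _ _ _)) fun a b => by
    simp [ι_prod, pr_inj, inj.eq_iff, eq_comm]

theorem Tm.rel {f : α → β} (hf : g.Tm f) (i j : ℕ) :
    g.PD (fun w => ∃ a, ι a = w i ∧ ι (f a) = w j) := by
  have : g.PD (fun w => ∃ q, q = pr (w i) (w j) ∧ ∃ z : α × β, ι z = q ∧ z.2 = f z.1) :=
    PD.ex ((PD.pr _ _ _).and (D1.at (S := fun x => ∃ z : α × β, ι z = x ∧ z.2 = f z.1) hf _))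
  refine this.congr fun w => ⟨?_, ?_⟩
  · rintro ⟨_, rfl, ⟨a, b⟩, e, h⟩
    obtain rfl : b = f a := h
    exact ⟨a, pr_inj.1 e⟩
  · rintro ⟨a, e₁, e₂⟩
    exact ⟨_, rfl, (a, f a), by rw [← e₁, ← e₂]; rfl, rfl⟩

theorem Tm.comp {h : α → β} {f : Γ → α} (hh : g.Tm h) (hf : g.Tm f) :
    g.Tm (fun x => h (f x)) :=
  Tm.ofPD (S := fun x y => ∃ t, (∃ a, ι a = x ∧ ι (f a) = t) ∧ ∃ a, ι a = t ∧ ι (h a) = y)
    (PD.ex ((hf.rel _ _).and (hh.rel _ _))) fun a b => by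
      simp [inj.eq_iff, eq_comm]

theorem Tm.pair {f : Γ → α} {h : Γ → β} (hf : g.Tm f) (hh : g.Tm h) :
    g.Tm (fun x => (f x, h x)) :=
  Tm.ofPD (S := fun x y => ∃ s t, y = pr s t ∧ (∃ a, ι a = x ∧ ι (f a) = s) ∧
      ∃ a, ι a = x ∧ ι (h a) = t)
    (PD.ex (PD.ex ((PD.pr _ _ _).and ((hf.rel _ _).and (hh.rel _ _))))) fun a b => by
      simp [inj.eq_iff, ι_prod, pr_inj, Prod.ext_iff]

theorem Tm.fst {f : Γ → α × β} (hf : g.Tm f) : g.Tm (fun x => (f x).1) := Tm.fst'.comp hf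

theorem Tm.snd {f : Γ → α × β} (hf : g.Tm f) : g.Tm (fun x => (f x).2) := Tm.snd'.comp hf

theorem Tm.ι' : g.Tm (fun x : Γ => (ι x : g.M)) :=
  Tm.ofPD (S := fun x y => y = x) (PD.eq _ _) fun _ _ => Iff.rfl

theorem Tm.ι {f : Γ → α} (hf : g.Tm f) : g.Tm (fun x => (ι (f x) : g.M)) := Tm.ι'.comp hf

theorem Df.comp₂ {Q : α → β → Prop} {f : Γ → α} {h : Γ → β}
    (H : g.Df (fun z : α × β => Q z.1 z.2)) (hf : g.Tm f) (hh : g.Tm h) :
    g.Df (fun x => Q (f x) (h x)) := H.comp (hf.pair hh)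

theorem Df.comp₃ {γ : Type*} [Cd g γ] {Q : α → β → γ → Prop} {f : Γ → α} {h : Γ → β} {k : Γ → γ}
    (H : g.Df (fun z : α × β × γ => Q z.1 z.2.1 z.2.2)) (hf : g.Tm f) (hh : g.Tm h)
    (hk : g.Tm k) : g.Df (fun x => Q (f x) (h x) (k x)) := H.comp (hf.pair (hh.pair hk))

theorem Tm.comp₂ {γ : Type*} [Cd g γ] {F : α → β → γ} {f : Γ → α} {h : Γ → β}
    (H : g.Tm (fun z : α × β => F z.1 z.2)) (hf : g.Tm f) (hh : g.Tm h) :
    g.Tm (fun x => F (f x) (h x)) := H.comp (hf.pair hh)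

theorem Df.eq {f h : Γ → α} (hf : g.Tm f) (hh : g.Tm h) : g.Df (fun x => f x = h x) :=
  Df.comp₂ (Q := fun a b => a = b)
    ((Df.ofPD (S := fun x y => x = y) (PD.eq _ _)).congr fun _ => inj.eq_iff) hf hh

theorem Df.mem {f h : Γ → g.M} (hf : g.Tm f) (hh : g.Tm h) : g.Df (fun x => g.E (f x) (h x)) :=
  Df.comp₂ (Q := g.E) (Df.ofPD (α := g.M) (β := g.M) (S := g.E) (PD.mem _ _)) hf hh

theorem Tm.pr {f h : Γ → g.M} (hf : g.Tm f) (hh : g.Tm h) : g.Tm (fun x => pr (f x) (h x)) :=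
  (hf.pair hh).ι

theorem Df.app {f h k : Γ → g.M} (hf : g.Tm f) (hh : g.Tm h) (hk : g.Tm k) :
    g.Df (fun x => App g.E (f x) (h x) (k x)) :=
  (Df.mem (hh.pr hk) hf).congr fun _ => app_iff.symm

theorem Df.udef₃ {S : ∀ (M : Type (u + 1)), (M → M → Prop) → M → M → M → Prop}
    (H : UDef (fun M E w => S M E (w 0) (w 1) (w 2))) {f h k : Γ → g.M} (hf : g.Tm f)
    (hh : g.Tm h) (hk : g.Tm k) : g.Df (fun x => S g.M g.E (f x) (h x) (k x)) := by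
  have h₀ : g.PD (fun w => ∃ s t, w 1 = pr s t ∧ S g.M g.E (w 0) s t) :=
    PD.ex (PD.ex ((PD.pr _ _ _).and ((PD.udef H).rename (cons 2 (cons 1 fun _ => 0)))))
  have h₁ := Df.ofPD (α := g.M) (β := g.M × g.M)
    (S := fun x y => ∃ s t, y = pr s t ∧ S g.M g.E x s t) h₀
  refine Df.comp₃ (Q := S g.M g.E) (h₁.congr fun z => ⟨?_, fun h => ⟨_, _, rfl, h⟩⟩) hf hh hk
  rintro ⟨s, t, e, h⟩
  obtain ⟨rfl, rfl⟩ := pr_inj.1 e
  exact h

theorem Df.isInj {f h k : Γ → g.M} (hf : g.Tm f) (hh : g.Tm h) (hk : g.Tm k) :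
    g.Df (fun x => IsInj g.E (f x) (h x) (k x)) :=
  Df.udef₃ (S := fun _ E => IsInj E) (UDef.isInj 0 1 2) hf hh hk

theorem Df.true : g.Df (fun _ : Γ => True) := (Df.eq Tm.id Tm.id).congr fun _ => by simp

theorem Df.constP (p : Prop) : g.Df (fun _ : Γ => p) := by
  by_cases h : p
  · exact Df.true.congr fun _ => by simp [h]
  · exact Df.true.not.congr fun _ => by simp [h]

theorem Tm.ofRel {f : Γ → α} {Q : Γ → α → Prop} (h : g.Df (fun z : Γ × α => Q z.1 z.2))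
    (e : ∀ x y, Q x y ↔ y = f x) : g.Tm f := h.congr fun z => e z.1 z.2

theorem Tm.ite {c : Γ → Prop} [DecidablePred c] {f h : Γ → α} (hc : g.Df c) (hf : g.Tm f)
    (hh : g.Tm h) : g.Tm (fun x => if c x then f x else h x) := by
  refine Tm.ofRel (Q := fun x y => (c x ∧ y = f x) ∨ (¬ c x ∧ y = h x))
    (((hc.comp Tm.fst').and hf).or ((hc.comp Tm.fst').not.and hh)) fun x y => ?_
  by_cases h : c x <;> simp [h]

/-! ### Separation, replacement and choice for coded types -/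

theorem Df.sep {Q : g.M → Prop} (h : g.Df Q) (a : g.M) : ∃ b, ∀ x, g.E x b ↔ g.E x a ∧ Q x := by
  simpa using D1.sep h a

theorem Df.coll [Bd g Γ] {Q : Γ → α → Prop} (h : g.Df (fun z : Γ × α => Q z.1 z.2)) :
    ∃ c, ∀ x, (∃ y, Q x y) → ∃ y, g.E (ι y) c ∧ Q x y := by
  obtain ⟨A, hA⟩ := Bd.bd (g := g) (α := Γ)
  obtain ⟨c, hc⟩ := D1.coll h A
  refine ⟨c, fun x ⟨y, hy⟩ => ?_⟩
  obtain ⟨y', h₁, ⟨a, b⟩, e, h₂⟩ := hc (ι x) (hA x) ⟨ι y, (x, y), rfl, hy⟩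
  obtain ⟨e₁, rfl⟩ := pr_inj.1 e
  obtain rfl := inj e₁
  exact ⟨b, h₁, h₂⟩

theorem exists_image [Bd g Γ] (hQ : g.Df Q) {f : Γ → g.M} (hf : g.Tm f) :
    ∃ S : g.M, ∀ y, g.E y S ↔ ∃ x, Q x ∧ f x = y := by
  obtain ⟨c, hc⟩ := Df.coll (Q := fun x y => y = f x) hf
  have : g.Df (fun y : g.M => ∃ x, Q x ∧ f x = y) :=
    Df.ex ((hQ.comp Tm.snd').and (Df.eq (hf.comp Tm.snd') Tm.fst'))
  obtain ⟨b, hb⟩ := this.sep c
  refine ⟨b, fun y => (hb y).trans ⟨fun h => h.2, fun ⟨x, h₁, h₂⟩ => ⟨?_, x, h₁, h₂⟩⟩⟩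
  obtain ⟨y', h₃, rfl⟩ := hc x ⟨_, rfl⟩
  exact h₂ ▸ h₃

theorem exists_graph [Bd g Γ] (hQ : g.Df Q) {f : Γ → α} (hf : g.Tm f) :
    ∃ F : g.M, (∀ p, g.E p F → ∃ x, Q x ∧ p = pr (ι x) (ι (f x))) ∧
      ∀ s t, App g.E F s t ↔ ∃ x, Q x ∧ s = ι x ∧ t = ι (f x) := by
  obtain ⟨F, hF⟩ := exists_image hQ (Tm.pr Tm.ι' hf.ι)
  refine ⟨F, fun p hp => ?_, fun s t => ?_⟩
  · obtain ⟨x, h, rfl⟩ := (hF p).1 hp
    exact ⟨x, h, rfl⟩
  · rw [app_iff, hF]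
    simp only [pr_inj, eq_comm]

theorem exists_enum (c : g.M) : ∃ f : g.M, (∀ y, g.E y c → ∃ s, App g.E f s y) ∧
    ∀ s s' y y', App g.E f s y → App g.E f s' y' → g.E s s' ∨ (s = s' ∧ y = y') ∨ g.E s' s := by
  obtain ⟨τ, hτ, rfl⟩ := exists_v c
  let o : τ.I → Name P := ordN (woWf τ.I)
  have hf : ∀ s t, App g.E (g.v (enumN τ)) s t ↔
      ∃ j, ⊤ ∈ g.G ∧ o j ∈ g.N ∧ τ.A j ∈ g.N ∧ s = g.v (o j) ∧ t = g.v (τ.A j) :=
    fun s t => app_relN (A := o) (A' := τ.A) (B := fun _ => ⊤) (enumN_mem hτ)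
  refine ⟨g.v (enumN τ), fun y hy => ?_, fun s s' y y' h h' => ?_⟩
  · obtain ⟨i, -, hi, rfl⟩ := (E_v hτ).1 hy
    have h : ∃ j, τ.A j = τ.A i := ⟨i, rfl⟩
    have := idxN_mem hτ hi
    unfold idxN at this
    rw [dif_pos h, pairN_mem_iff] at this
    exact ⟨_, (hf _ _).2 ⟨h.choose, g.top, this.1, this.2, rfl, by rw [h.choose_spec]⟩⟩
  · obtain ⟨j, -, h₁, -, rfl, rfl⟩ := (hf _ _).1 h
    obtain ⟨j', -, h₂, -, rfl, rfl⟩ := (hf _ _).1 h'
    rcases woTri _ j j' with h | rfl | h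
    exacts [Or.inl (ord_lt_of _ h₁ h₂ h), Or.inr (Or.inl ⟨rfl, rfl⟩),
      Or.inr (Or.inr (ord_lt_of _ h₂ h₁ h))]

/-- Definable choice. -/
theorem def_choice [Bd g Γ] {Q : Γ → α → Prop} (h : g.Df (fun z : Γ × α => Q z.1 z.2))
    (tot : ∀ x, ∃ y, Q x y) : ∃ f : Γ → α, g.Tm f ∧ ∀ x, Q x (f x) := by
  obtain ⟨c, hc⟩ := Df.coll h
  obtain ⟨e, he₁, he₂⟩ := exists_enum c
  let S : Γ → α → Prop := fun x y => Q x y ∧ ∃ s : g.M, App g.E e s (ι y) ∧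
    ∀ (s' : g.M) (y' : α), g.E s' s → App g.E e s' (ι y') → ¬ Q x y'
  have hS : g.Df (fun z : Γ × α => S z.1 z.2) := by
    refine h.and (Df.ex (Df.and (Df.app (Tm.const _) Tm.snd' Tm.fst'.snd.ι)
      (Df.all (Df.all (Df.imp (Df.mem Tm.fst'.snd Tm.fst'.fst.snd)
        (Df.imp (Df.app (Tm.const _) Tm.fst'.snd Tm.snd'.ι)
          (Df.not (Df.comp₂ h Tm.fst'.fst.fst.fst Tm.snd'))))))))
  have ex : ∀ x, ∃ y, S x y := by
    intro x
    obtain ⟨y, hy, hq⟩ := hc x (tot x)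
    obtain ⟨s, hs⟩ := he₁ _ hy
    obtain ⟨s, ⟨y, h₁, h₂⟩, hmin⟩ := E_wf.has_min {s | ∃ y, App g.E e s (ι y) ∧ Q x y}
      ⟨s, y, hs, hq⟩
    exact ⟨y, h₂, s, h₁, fun s' y' h₃ h₄ h₅ => hmin s' ⟨y', h₄, h₅⟩ h₃⟩
  choose f hf using ex
  refine ⟨f, Tm.ofRel hS fun x y => ⟨fun ⟨h₁, s, h₂, h₃⟩ => ?_, fun h => h ▸ hf x⟩,
    fun x => (hf x).1⟩
  obtain ⟨h₄, s', h₅, h₆⟩ := hf x
  rcases he₂ _ _ _ _ h₂ h₅ with h | h | h
  · exact absurd h₁ (h₆ _ _ h h₂)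
  · exact inj h.2
  · exact absurd h₄ (h₃ _ _ h h₅)

end Closure

end Gen

end Pool.Agent.MP_c6cf52_lc
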