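import Mathlib

namespace Pool.Agent.MP_c6cf52_lc

open FirstOrder

universe u

variable {M : Type u} (E : M → M → Prop)

/-- The structure for the language with one binary relation symbol, interpreted by `E`. -/
def memStr : Language.graph.Structure M where
  funMap := fun f => Empty.elim f
  RelMap := fun r x => match r with | .adj => E (x 0) (x 1)

/-- `(M, E)` is a model of ZFC. -/
structure IsZFC : Prop where
  ext : ∀ a b, (∀ x, E x a ↔ E x b) → a = b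
  found : ∀ a, (∃ x, E x a) → ∃ x, E x a ∧ ¬ ∃ y, E y x ∧ E y a
  pair : ∀ a b, ∃ c, ∀ x, E x c ↔ x = a ∨ x = b
  union : ∀ a, ∃ c, ∀ x, E x c ↔ ∃ y, E x y ∧ E y a
  power : ∀ a, ∃ c, ∀ x, E x c ↔ ∀ y, E y x → E y a
  inf : ∃ w, (∃ e, E e w ∧ ∀ y, ¬ E y e) ∧
    ∀ x, E x w → ∃ s, E s w ∧ ∀ y, E y s ↔ E y x ∨ y = x
  sep : ∀ S : Set M, @Set.Definable₁ M Set.univ Language.graph (memStr E) S →
    ∀ a, ∃ b, ∀ x, E x b ↔ E x a ∧ x ∈ S
  repl : ∀ R : Set (M × M), @Set.Definable₂ M Set.univ Language.graph (memStr E) R →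
    ∀ a, (∀ x, E x a → ∃! y, (x, y) ∈ R) → ∃ b, ∀ y, E y b ↔ ∃ x, E x a ∧ (x, y) ∈ R
  choice : ∀ a, (∀ x, E x a → ∃ y, E y x) →
    (∀ x y, E x a → E y a → (∃ z, E z x ∧ E z y) → x = y) →
    ∃ c, ∀ x, E x a → ∃! y, E y x ∧ E y c

/-- `p` is the Kuratowski pair of `a` and `b`. -/
def IsPair (p a b : M) : Prop :=
  ∀ z, E z p ↔ (∀ x, E x z ↔ x = a) ∨ (∀ x, E x z ↔ x = a ∨ x = b)

/-- The pair `(a, b)` belongs to `f`. -/
def App (f a b : M) : Prop := ∃ p, E p f ∧ IsPair E p a b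

/-- `f` is a function from `X` to `Y`. -/
def IsFun (f X Y : M) : Prop :=
  (∀ p, E p f → ∃ a b, E a X ∧ E b Y ∧ IsPair E p a b) ∧ ∀ a, E a X → ∃! b, App E f a b

/-- `f` is an injection from `X` to `Y`. -/
def IsInj (f X Y : M) : Prop :=
  IsFun E f X Y ∧ ∀ a a' b, App E f a b → App E f a' b → a = a'

/-- `a` is a von Neumann ordinal. -/
def IsOrd (a : M) : Prop :=
  (∀ x y, E x a → E y x → E y a) ∧ ∀ x y, E x a → E y a → E x y ∨ x = y ∨ E y x

/-- `k` is a cardinal: an ordinal with no injection into a smaller ordinal. -/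
def IsCard (k : M) : Prop := IsOrd E k ∧ ∀ a, E a k → ¬ ∃ f, IsInj E f k a

/-- The set of ordinals `A` has order type `t`. -/
def HasOtp (A t : M) : Prop :=
  ∃ f, IsFun E f t A ∧ (∀ b, E b A → ∃ a, App E f a b) ∧
    ∀ a a' b b', App E f a b → App E f a' b' → E a a' → E b b'

/-- The square in square relation `sis(l, t, th)`. -/
def Sis (l t th : M) : Prop :=
  ∀ D c, (∀ p, E p D ↔ ∃ a b, E a l ∧ E b l ∧ IsPair E p a b) → IsFun E c D th →
    ∃ A B, (∀ x, E x A → E x l) ∧ (∀ x, E x B → E x l) ∧ HasOtp E A t ∧ HasOtp E B t ∧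
      ∃ i, ∀ a b p, E a A → E b B → IsPair E p a b → App E c p i

end Pool.Agent.MP_c6cf52_lc
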