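import Pool.Agent.MP_c6cf52_lc.Ground

namespace Pool.Agent.MP_c6cf52_lc

open Cardinal Set

/-- Conditions: a countable piece of the colouring, promises, and a piece of the collapse. -/
structure Cond where
  a : Set XX
  d : XX → XX → Bool
  S : Set (ℕ → XX)
  g : Set (ℝ × XX)
  a_ct : a.Countable
  S_ct : S.Countable
  g_ct : g.Countable
  S_inj : ∀ s ∈ S, Function.Injective s
  S_sub : ∀ s ∈ S, ∀ n, s n ∈ a
  g_lt : ∀ x ∈ g, x.2 < w1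
  g_fun : ∀ x ∈ g, ∀ y ∈ g, (x.1 = y.1 ↔ x.2 = y.2)

namespace Cond

structure Ext (q p : Cond) : Prop where
  a : p.a ⊆ q.a
  d : ∀ x ∈ p.a, ∀ y ∈ p.a, q.d x y = p.d x y
  S : p.S ⊆ q.S
  g : p.g ⊆ q.g
  prom : ∀ s ∈ p.S, ∀ x ∈ q.a, x ∉ p.a → (∀ n, x < s n) → ∀ i, ∃ n, q.d x (s n) = i

instance : Preorder Cond where
  le := Ext
  le_refl p := ⟨Subset.rfl, fun _ _ _ _ => rfl, Subset.rfl, Subset.rfl,
    fun _ _ _ h h' => absurd h h'⟩
  le_trans r q p h₁ h₂ := by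
    refine ⟨h₂.a.trans h₁.a, fun x hx y hy => ?_, h₂.S.trans h₁.S, h₂.g.trans h₁.g,
      fun s hs x hx hx' hlt i => ?_⟩
    · rw [h₁.d x (h₂.a hx) y (h₂.a hy), h₂.d x hx y hy]
    · by_cases hq : x ∈ q.a
      · obtain ⟨n, hn⟩ := h₂.prom s hs x hq hx' hlt i
        exact ⟨n, by rw [h₁.d x hq _ (h₂.a (p.S_sub s hs n)), hn]⟩
      · exact h₁.prom s (h₂.S hs) x hx hq hlt i

theorem le_def {q p : Cond} : q ≤ p ↔ Ext q p := Iff.rfl

instance : OrderTop Cond where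
  top := ⟨∅, fun _ _ => true, ∅, ∅, countable_empty, countable_empty, countable_empty,
    by simp, by simp, by simp, by simp⟩
  le_top p := ⟨empty_subset _, fun _ h => h.elim, empty_subset _, empty_subset _,
    fun _ h => h.elim⟩

theorem add_set (p : Cond) (b : Set XX) (hb : b.Countable) : ∃ q ≤ p, b ⊆ q.a := by
  classical
  obtain ⟨e, he⟩ := exists_split p.S p.S_ct p.S_inj
  refine ⟨⟨p.a ∪ b, fun x y => if x ∈ p.a ∧ y ∈ p.a then p.d x y else e y, p.S, p.g,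
    p.a_ct.union hb, p.S_ct, p.g_ct, p.S_inj, fun s hs n => Or.inl (p.S_sub s hs n), p.g_lt,
    p.g_fun⟩, ⟨subset_union_left, fun x hx y hy => if_pos ⟨hx, hy⟩, Subset.rfl, Subset.rfl,
    fun s hs x _ hx _ i => ?_⟩, subset_union_right⟩
  obtain ⟨n, hn⟩ := he s hs i
  exact ⟨n, (if_neg fun h => hx h.1).trans hn⟩

theorem add_seq (p : Cond) (s : ℕ → XX) (hs : Function.Injective s) : ∃ q ≤ p, s ∈ q.S := by
  obtain ⟨q, hq, h⟩ := p.add_set (range s) (countable_range s)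
  refine ⟨⟨q.a, q.d, insert s q.S, q.g, q.a_ct, q.S_ct.insert s, q.g_ct, ?_, ?_, q.g_lt, q.g_fun⟩,
    le_trans (show Ext _ q from ⟨Subset.rfl, fun _ _ _ _ => rfl, subset_insert _ _, Subset.rfl,
      fun _ _ _ h h' => absurd h h'⟩) hq, mem_insert _ _⟩
  · rintro t (rfl | ht)
    exacts [hs, q.S_inj t ht]
  · rintro t (rfl | ht) n
    exacts [h ⟨n, rfl⟩, q.S_sub t ht n]

theorem add_dom (p : Cond) (z : ℝ) : ∃ q ≤ p, ∃ w, (z, w) ∈ q.g := by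
  by_cases h : ∃ w, (z, w) ∈ p.g
  · exact ⟨p, le_rfl, h⟩
  push Not at h
  obtain ⟨w, hw, hw'⟩ := exists_new (p.g_ct.image Prod.snd)
  have h₁ : ∀ y ∈ p.g, ¬ z = y.1 := fun y hy e => h y.2 (e ▸ hy)
  have h₂ : ∀ y ∈ p.g, ¬ w = y.2 := fun y hy e => hw' ⟨y, hy, e.symm⟩
  refine ⟨⟨p.a, p.d, p.S, insert (z, w) p.g, p.a_ct, p.S_ct, p.g_ct.insert _, p.S_inj, p.S_sub,
    ?_, ?_⟩, ⟨Subset.rfl, fun _ _ _ _ => rfl, Subset.rfl, subset_insert _ _,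
      fun _ _ _ h h' => absurd h h'⟩, w, mem_insert _ _⟩
  · rintro x (rfl | hx)
    exacts [hw, p.g_lt x hx]
  · rintro x (rfl | hx) y (rfl | hy)
    · simp
    · exact iff_of_false (h₁ y hy) (h₂ y hy)
    · exact iff_of_false (fun e => h₁ x hx e.symm) (fun e => h₂ x hx e.symm)
    · exact p.g_fun x hx y hy

theorem closed (s : ℕ → Cond) (hs : Antitone s) : ∃ q, ∀ n, q ≤ s n := by
  classical
  have hle : ∀ n m, Ext (s (max n m)) (s n) ∧ Ext (s (max n m)) (s m) := fun n m =>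
    ⟨hs (le_max_left _ _), hs (le_max_right _ _)⟩
  let d : XX → XX → Bool := fun x y =>
    if h : ∃ n, x ∈ (s n).a ∧ y ∈ (s n).a then (s h.choose).d x y else true
  have hd : ∀ n, ∀ x ∈ (s n).a, ∀ y ∈ (s n).a, d x y = (s n).d x y := by
    intro n x hx y hy
    have h : ∃ n, x ∈ (s n).a ∧ y ∈ (s n).a := ⟨n, hx, hy⟩
    simp only [d, dif_pos h]
    rw [← (hle n h.choose).1.d x hx y hy,
      (hle n h.choose).2.d x h.choose_spec.1 y h.choose_spec.2]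
  refine ⟨⟨⋃ n, (s n).a, d, ⋃ n, (s n).S, ⋃ n, (s n).g, countable_iUnion fun n => (s n).a_ct,
    countable_iUnion fun n => (s n).S_ct, countable_iUnion fun n => (s n).g_ct, ?_, ?_, ?_, ?_⟩,
    fun n => ⟨subset_iUnion (fun n => (s n).a) n, hd n, subset_iUnion (fun n => (s n).S) n,
      subset_iUnion (fun n => (s n).g) n, fun t ht x hx hx' hlt i => ?_⟩⟩
  · intro t ht
    obtain ⟨n, hn⟩ := mem_iUnion.1 ht
    exact (s n).S_inj t hn
  · intro t ht k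
    obtain ⟨n, hn⟩ := mem_iUnion.1 ht
    exact mem_iUnion.2 ⟨n, (s n).S_sub t hn k⟩
  · intro t ht
    obtain ⟨n, hn⟩ := mem_iUnion.1 ht
    exact (s n).g_lt t hn
  · intro x hx y hy
    obtain ⟨n, hn⟩ := mem_iUnion.1 hx
    obtain ⟨m, hm⟩ := mem_iUnion.1 hy
    exact (s (max n m)).g_fun x ((hle n m).1.g hn) y ((hle n m).2.g hm)
  · obtain ⟨m, hm⟩ := mem_iUnion.1 hx
    have hx₂ := (hle n m).2.a hm
    obtain ⟨k, hk⟩ := (hle n m).1.prom t ht x hx₂ hx' hlt i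
    exact ⟨k, (hd _ x hx₂ _ ((hle n m).1.a ((s n).S_sub t ht k))).trans hk⟩

theorem amalg (p q : Cond) (I : Set XX) (η : XX) (low : ∀ x y, x ≤ y → y ∈ I → x ∈ I)
    (hp : p.a ⊆ I) (hq : ∀ x ∈ q.a, x ∈ I → x < η) (ha : p.a ∩ Iio η = q.a ∩ Iio η)
    (hd : ∀ x ∈ q.a ∩ Iio η, ∀ y ∈ q.a ∩ Iio η, p.d x y = q.d x y) (hg : p.g = q.g) :
    ∃ r, r ≤ p ∧ r ≤ q := by
  classical
  obtain ⟨e, he⟩ := exists_split q.S q.S_ct q.S_inj
  refine ⟨⟨p.a ∪ q.a, fun x y => if x ∈ p.a ∧ y ∈ p.a then p.d x y else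
      if x ∈ q.a ∧ y ∈ q.a then q.d x y else e y, p.S ∪ q.S, p.g,
    p.a_ct.union q.a_ct, p.S_ct.union q.S_ct, p.g_ct, ?_, ?_, p.g_lt, p.g_fun⟩,
    ⟨subset_union_left, fun x hx y hy => if_pos ⟨hx, hy⟩, subset_union_left, Subset.rfl,
      fun s hs x hx hx' hlt i => ?_⟩,
    ⟨subset_union_right, fun x hx y hy => ?_, subset_union_right, hg.ge,
      fun s hs x hx hx' hlt i => ?_⟩⟩
  · rintro s (hs | hs)
    exacts [p.S_inj s hs, q.S_inj s hs]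
  · rintro s (hs | hs) n
    exacts [Or.inl (p.S_sub s hs n), Or.inr (q.S_sub s hs n)]
  · exfalso
    have hxq : x ∈ q.a := hx.resolve_left hx'
    have hI : x ∈ I := low _ _ (hlt 0).le (hp (p.S_sub s hs 0))
    have : x ∈ p.a ∩ Iio η := ha ▸ ⟨hxq, hq x hxq hI⟩
    exact hx' this.1
  · by_cases h : x ∈ p.a ∧ y ∈ p.a
    · exact (if_pos h).trans (hd x ⟨hx, hq x hx (hp h.1)⟩ y ⟨hy, hq y hy (hp h.2)⟩)
    · exact (if_neg h).trans (if_pos ⟨hx, hy⟩)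
  · have hxp : x ∈ p.a := hx.resolve_right hx'
    have hη : η ≤ x := not_lt.1 fun h => hx' (ha ▸ (⟨hxp, h⟩ : x ∈ p.a ∩ Iio η) :
      x ∈ q.a ∩ Iio η).1
    obtain ⟨n, hn⟩ := he s hs i
    have hn' : s n ∉ p.a := fun h =>
      (hη.trans_lt (hlt n)).not_gt (hq _ (q.S_sub s hs n) (hp h))
    exact ⟨n, (if_neg fun h => hn' h.2).trans ((if_neg fun h => hx' h.1).trans hn)⟩

theorem cc {Γ : Type} (hΓ : #Γ ≤ 𝔠) (q : XX → Cond) (γ : XX → Γ) :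
    ∃ β β', β ≠ β' ∧ γ β = γ β' ∧ ∃ r, r ≤ q β ∧ r ≤ q β' := by
  let T : XX → XX → Set XX × Set (XX × XX) × Set (ℝ × XX) × Γ := fun η β =>
    ((q β).a ∩ Iio η, {z | z.1 ∈ (q β).a ∩ Iio η ∧ z.2 ∈ (q β).a ∩ Iio η ∧ (q β).d z.1 z.2 = true},
      (q β).g, γ β)
  have hT : ∀ η, #(range (T η)) ≤ 𝔠 := by
    intro η
    have h₁ := mk_ct_subsets (Iio η) (mk_Iio_le η)
    have h₂ := mk_ct_subsets _ (mk_prod_le_c (mk_Iio_le η) (mk_Iio_le η))
    have h₃ := mk_ct_subsets _ (mk_prod_le_c (s := (Set.univ : Set ℝ)) (by simp [mk_real]) (mk_Iio_le w1))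
    have h₄ : #(Set.univ : Set Γ) ≤ 𝔠 := by simpa using hΓ
    refine (mk_le_mk_of_subset ?_).trans (mk_prod_le_c h₁ (mk_prod_le_c h₂ (mk_prod_le_c h₃ h₄)))
    rintro _ ⟨β, rfl⟩
    refine ⟨⟨inter_subset_right, (q β).a_ct.mono inter_subset_left⟩,
      ⟨fun z hz => ⟨hz.1.2, hz.2.1.2⟩, ((q β).a_ct.prod (q β).a_ct).mono
        fun z hz => Set.mk_mem_prod hz.1.1 hz.2.1.1⟩,
      ⟨fun z hz => ⟨trivial, (q β).g_lt z hz⟩, (q β).g_ct⟩, trivial⟩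
  let ρ : ∀ η, range (T η) → XX := fun η t => t.2.choose
  have hρ : ∀ η t, T η (ρ η t) = t.1 := fun η t => t.2.choose_spec
  let U : XX → Set XX := fun η => ⋃ t, insert η (insert (ρ η t) (q (ρ η t)).a)
  have hU : ∀ η, #(U η) ≤ 𝔠 := fun η =>
    mk_iUnion_le_c (hT η) _ fun t => ct_le (((q _).a_ct.insert _).insert _)
  obtain ⟨I, low, ⟨β, hβ⟩, hI⟩ := exists_closed (fun η => bd (U η))
  obtain ⟨η, hη, hF⟩ := hI ((q β).a ∩ I) ((q β).a_ct.mono inter_subset_left) inter_subset_right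
  let t : range (T η) := ⟨T η β, β, rfl⟩
  have hsub : ∀ x ∈ insert η (insert (ρ η t) (q (ρ η t)).a), x ∈ I := fun x hx =>
    low _ _ (lt_bd (hU η) (mem_iUnion.2 ⟨t, hx⟩)).le hF
  have e : T η (ρ η t) = T η β := hρ η t
  simp only [T, Prod.mk.injEq] at e
  obtain ⟨e₁, e₂, e₃, e₄⟩ := e
  refine ⟨ρ η t, β, fun h => hβ (h ▸ hsub _ (Or.inr (Or.inl rfl))), e₄,
    amalg _ _ I η low (fun x hx => hsub x (Or.inr (Or.inr hx))) (fun x hx hx' => hη x ⟨hx, hx'⟩)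
      e₁ (fun x hx y hy => ?_) e₃⟩
  have := Set.ext_iff.1 e₂ (x, y)
  simp only [mem_ofPred_eq, e₁, hx, hy, true_and] at this
  exact Bool.eq_iff_iff.2 this

/-- The symmetric colouring read off from a condition. -/
noncomputable def c (p : Cond) (x y : XX) : Bool := if x ≤ y then p.d x y else p.d y x

theorem c_symm (p : Cond) (x y : XX) : p.c x y = p.c y x := by
  unfold c
  rcases lt_trichotomy x y with h | rfl | h
  · rw [if_pos h.le, if_neg h.not_ge]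
  · rfl
  · rw [if_pos h.le, if_neg h.not_ge]

theorem c_le {q p : Cond} (h : q ≤ p) {x y : XX} (hx : x ∈ p.a) (hy : y ∈ p.a) :
    q.c x y = p.c x y := by
  unfold c
  rw [h.d x hx y hy, h.d y hy x hx]

end Cond

end Pool.Agent.MP_c6cf52_lc
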