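import Pool.Agent.MP_c6cf52_lc.Tools
import Pool.Agent.MP_c6cf52_lc.Poset

namespace Pool.Agent.MP_c6cf52_lc

open Name Gen Cardinal Set

theorem wfX : WellFounded (fun a b : XX => a < b) := wellFounded_lt

theorem triX (a b : XX) : a < b ∨ a = b ∨ b < a := lt_trichotomy a b

/-- Names of ordinals. -/
noncomputable def o (x : XX) : Name Cond := ordN wfX x

noncomputable def lamN : Name Cond := setN wfX Set.univ

noncomputable def nN (k : ℕ) : Name Cond := ordN natWf ⟨k⟩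

noncomputable def col (b : Bool) : Name Cond := nN (cond b 1 0)

variable {g : Gen Cond}

theorem E_o {a : XX} (h : o a ∈ g.N) {x : g.M} :
    g.E x (g.v (o a)) ↔ ∃ y, y < a ∧ o y ∈ g.N ∧ g.v (o y) = x := E_ordN wfX h

theorem E_lam (h : lamN ∈ g.N) {x : g.M} :
    g.E x (g.v lamN) ↔ ∃ y, o y ∈ g.N ∧ g.v (o y) = x := by
  unfold lamN at h ⊢
  rw [E_setN wfX h]
  simp only [mem_univ, true_and]
  rfl

theorem o_lt {a b : XX} (ha : o a ∈ g.N) (hb : o b ∈ g.N) :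
    g.E (g.v (o a)) (g.v (o b)) ↔ a < b := ord_lt_iff wfX triX ha hb

theorem o_inj {a b : XX} (ha : o a ∈ g.N) (hb : o b ∈ g.N) (h : g.v (o a) = g.v (o b)) : a = b :=
  ord_inj wfX triX ha hb h

theorem o_mem {a b : XX} (hb : o b ∈ g.N) (h : b < w1) (hab : a < b) : o a ∈ g.N :=
  ordN_mem wfX hb (ct_of_lt h) hab

theorem o_eq (x : XX) : o x = fam (fun y : Iio x => o y.1) := ordN_eq wfX x

theorem isOrd_o {a : XX} (h : o a ∈ g.N) : IsOrd g.E (g.v (o a)) := by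
  have e : o a = setN wfX {y | y < a} := ordN_eq wfX a
  rw [e] at h ⊢
  exact isOrd_setN wfX triX h fun x y h₁ h₂ => lt_trans h₁ h₂

theorem isOrd_lam (h : lamN ∈ g.N) : IsOrd g.E (g.v lamN) :=
  isOrd_setN wfX triX h fun _ _ _ _ => trivial

theorem nN_mem (k : ℕ) : nN k ∈ g.N := nat_mem _

theorem col_mem (b : Bool) : col b ∈ g.N := nN_mem _

theorem nN_inj {j k : ℕ} (h : g.v (nN j) = g.v (nN k)) : j = k :=
  congrArg ULift.down (ord_inj natWf natTri (nN_mem j) (nN_mem k) h)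

theorem col_inj {a b : Bool} (h : g.v (col a) = g.v (col b)) : a = b := by
  have := nN_inj h
  cases a <;> cases b <;> simp_all

theorem E_nN {k : ℕ} {x : g.M} : g.E x (g.v (nN k)) ↔ ∃ j < k, g.v (nN j) = x := by
  unfold nN
  rw [E_ordN natWf (nat_mem _)]
  exact ⟨fun ⟨y, h₁, _, h₂⟩ => ⟨y.down, h₁, h₂⟩, fun ⟨j, h₁, h₂⟩ => ⟨⟨j⟩, h₁, nat_mem _, h₂⟩⟩

theorem three_spec : IsOrd g.E (g.v (nN 3)) ∧ ∃ x y z, x ≠ y ∧ x ≠ z ∧ y ≠ z ∧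
    ∀ w, g.E w (g.v (nN 3)) ↔ w = x ∨ w = y ∨ w = z := by
  constructor
  · have e : nN 3 = setN natWf {y | y.down < 3} := ordN_eq natWf ⟨3⟩
    have h := nN_mem (g := g) 3
    rw [e] at h ⊢
    exact isOrd_setN natWf natTri h fun x y h₁ h₂ => lt_trans h₁ h₂
  · refine ⟨g.v (nN 0), g.v (nN 1), g.v (nN 2), fun h => ?_, fun h => ?_, fun h => ?_,
      fun w => ?_⟩
    · simpa using nN_inj h
    · simpa using nN_inj h
    · simpa using nN_inj h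
    · rw [E_nN]
      constructor
      · rintro ⟨j, hj, rfl⟩
        interval_cases j <;> simp
      · rintro (rfl | rfl | rfl)
        exacts [⟨0, by norm_num, rfl⟩, ⟨1, by norm_num, rfl⟩, ⟨2, by norm_num, rfl⟩]

/-! ### The collapse -/

noncomputable def injN {J : Type} (A : J → Name Cond) (e : J ↪ ℝ) : Name Cond :=
  relN (fun z : {z : J × XX × Cond // (e z.1, z.2.1) ∈ z.2.2.g} => A z.1.1)
    (fun z => o z.1.2.1) (fun z => z.1.2.2)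

theorem app_injN {J : Type} {A : J → Name Cond} {e : J ↪ ℝ} (h : injN A e ∈ g.N) {s t : g.M} :
    App g.E (g.v (injN A e)) s t ↔ ∃ j x p, p ∈ g.G ∧ (e j, x) ∈ p.g ∧ A j ∈ g.N ∧ o x ∈ g.N ∧
      s = g.v (A j) ∧ t = g.v (o x) := by
  unfold injN at h ⊢
  rw [app_relN h]
  exact ⟨fun ⟨⟨⟨j, x, p⟩, h₀⟩, h₁, h₂⟩ => ⟨j, x, p, h₁, h₀, h₂⟩,
    fun ⟨j, x, p, h₁, h₀, h₂⟩ => ⟨⟨⟨j, x, p⟩, h₀⟩, h₁, h₂⟩⟩

theorem g_compat {p q : Cond} (hp : p ∈ g.G) (hq : q ∈ g.G) {a b : ℝ × XX} (ha : a ∈ p.g)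
    (hb : b ∈ q.g) : a.1 = b.1 ↔ a.2 = b.2 := by
  obtain ⟨r, -, h₁, h₂⟩ := g.dir hp hq
  exact r.g_fun a (h₁.g ha) b (h₂.g hb)

theorem isInj_injN {J : Type} {A : J → Name Cond} {e : J ↪ ℝ} (h : injN A e ∈ g.N)
    (hA : fam A ∈ g.N) (hk : o w1 ∈ g.N)
    (inj : ∀ i j, A i ∈ g.N → A j ∈ g.N → g.v (A i) = g.v (A j) → i = j) :
    IsInj g.E (g.v (injN A e)) (g.v (fam A)) (g.v (o w1)) := by
  refine ⟨⟨fun p hp => ?_, fun a ha => ?_⟩, fun a a' b h₁ h₂ => ?_⟩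
  · obtain ⟨⟨⟨j, x, q⟩, h₀⟩, -, h₂, h₃, rfl⟩ := (E_relN h).1 hp
    exact ⟨_, _, (E_fam hA).2 ⟨j, h₂, rfl⟩, (o_lt h₃ hk).2 (q.g_lt _ h₀), isPair_pr _ _⟩
  · obtain ⟨j, hj, rfl⟩ := (E_fam hA).1 ha
    have : ∃ b, App g.E (g.v (injN A e)) (g.v (A j)) b := by
      refine dens (Ψ := fun _ E w => ∃ b, App E (w 0) (w 1) b) (UDef.ex (UDef.app _ _ _))
        (l2 h hj) fun p _ => ?_
      obtain ⟨q, hq, x, hx⟩ := p.add_dom (e j)
      refine ⟨q, hq, {o x}, countable_singleton _, fun g' hq' hC hl => ?_⟩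
      exact ⟨_, (app_injN (hl _ (by simp))).2
        ⟨j, x, q, hq', hx, hl _ (by simp), hC rfl, rfl, rfl⟩⟩
    obtain ⟨b, hb⟩ := this
    refine ⟨b, hb, fun b' hb' => ?_⟩
    obtain ⟨i, x, p, hp, hx, hi, -, e₁, rfl⟩ := (app_injN h).1 hb
    obtain ⟨i', x', p', hp', hx', hi', -, e₂, rfl⟩ := (app_injN h).1 hb'
    obtain rfl := inj _ _ hi hi' (e₁.symm.trans e₂)
    rw [show x = x' from (g_compat hp hp' hx hx').1 rfl]
  · obtain ⟨i, x, p, hp, hx, -, ho, rfl, rfl⟩ := (app_injN h).1 h₁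
    obtain ⟨i', x', p', hp', hx', -, ho', rfl, e₂⟩ := (app_injN h).1 h₂
    rw [e.injective ((g_compat hp hp' hx hx').2 (o_inj ho ho' e₂))]

theorem exists_emb {J : Type} (h : #J ≤ 𝔠) : Nonempty (J ↪ ℝ) := by
  rw [← mk_real] at h
  exact h

theorem no_card_between (hk : o w1 ∈ g.N) (hl : lamN ∈ g.N) (m : g.M) (hm : IsCard g.E m)
    (hkm : g.E (g.v (o w1)) m) : ¬ g.E m (g.v lamN) := by
  intro h
  obtain ⟨x, hx, rfl⟩ := (E_lam hl).1 h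
  refine hm.2 _ hkm ?_
  obtain ⟨e⟩ := exists_emb (mk_Iio_le x)
  refine dens (Ψ := fun _ E w => ∃ f, IsInj E f (w 0) (w 1)) (UDef.ex (UDef.isInj _ _ _))
    (l2 hx hk) fun p _ => ⟨p, le_rfl, {injN (fun y : Iio x => o y.1) e}, countable_singleton _,
      fun g' _ hC hl => ?_⟩
  have hx' : o x ∈ g'.N := hl _ (by simp)
  have := isInj_injN (g := g') (hC rfl) (o_eq x ▸ hx') (hl _ (by simp))
    fun i j hi hj h => Subtype.ext (o_inj hi hj h)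
  rw [← o_eq] at this
  exact ⟨_, this⟩

/-! ### The two cardinals -/

theorem isCard_w1 (hk : o w1 ∈ g.N) : IsCard g.E (g.v (o w1)) := by
  refine ⟨isOrd_o hk, fun a ha ⟨f, hf⟩ => ?_⟩
  obtain ⟨y, hy, hyN, rfl⟩ := (E_o hk).1 ha
  obtain ⟨σ, hσ, rfl⟩ := exists_v f
  refine dens (Ψ := fun _ E w => ¬ IsInj E (w 0) (w 1) (w 2)) (UDef.isInj _ _ _).not
    (l3 hσ hk hyN) (fun p _ => ?_) hf
  have := (ct_of_lt hy).to_subtype
  obtain ⟨q, hq, h, H⟩ := decide_app Cond.closed (J := Iio y) (K := Iio w1) σ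
    (fun _ k => o k.1) (fun j _ => o j.1) p
  obtain ⟨x, hx, hx'⟩ := exists_new (countable_range fun j => (h j).1)
  refine ⟨q, hq, insert (o x) (range fun j => o (h j).1), (countable_range _).insert _,
    fun g' hq' hC hl (hf : IsInj g'.E (g'.v σ) (g'.v (o w1)) (g'.v (o y))) => ?_⟩
  have hxN : o x ∈ g'.N := hC (mem_insert _ _)
  obtain ⟨b, hb, hab⟩ := fun_ex hf.1 ((o_lt hxN (hl _ (by simp))).2 hx)
  obtain ⟨z, hz, hzN, rfl⟩ := (E_o (hl _ (by simp))).1 hb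
  have hh : o (h ⟨z, hz⟩).1 ∈ g'.N := hC (Or.inr ⟨_, rfl⟩)
  have := H g' hq' (hl _ (by simp)) ⟨z, hz⟩ ⟨x, hx⟩ hxN hzN hab hh hzN
  exact hx' ⟨⟨z, hz⟩, o_inj hh hxN (hf.2 _ _ _ this hab)⟩

theorem isCard_lam (hl : lamN ∈ g.N) : IsCard g.E (g.v lamN) := by
  refine ⟨isOrd_lam hl, fun a ha ⟨f, hf⟩ => ?_⟩
  obtain ⟨y, hyN, rfl⟩ := (E_lam hl).1 ha
  obtain ⟨σ, hσ, rfl⟩ := exists_v f
  obtain ⟨p, -, H⟩ := transfer (UDef.isInj 0 1 2) (l3 hσ hl hyN) hf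
  have key : ∀ β : XX, ∃ q ≤ p, ∃ γ : Iio y, ∀ g' : Gen Cond, q ∈ g'.G → σ ∈ g'.N →
      o β ∈ g'.N → o γ.1 ∈ g'.N → App g'.E (g'.v σ) (g'.v (o β)) (g'.v (o γ.1)) := by
    intro β
    obtain ⟨g', hp', hC⟩ := exists_gen p {σ, lamN, o y, o β} (Set.toFinite _).countable
    have h₁ : σ ∈ g'.N := hC (by simp)
    have h₂ : lamN ∈ g'.N := hC (by simp)
    have h₃ : o y ∈ g'.N := hC (by simp)
    have h₄ : o β ∈ g'.N := hC (by simp)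
    have hf : IsInj g'.E (g'.v σ) (g'.v lamN) (g'.v (o y)) := H g' hp' (l3 h₁ h₂ h₃)
    obtain ⟨b, hb, hab⟩ := fun_ex hf.1 ((E_lam h₂).2 ⟨β, h₄, rfl⟩)
    obtain ⟨z, hz, hzN, rfl⟩ := (E_o h₃).1 hb
    obtain ⟨r, hr, H'⟩ := transfer_app h₁ h₄ hzN hab
    obtain ⟨s, -, h₅, h₆⟩ := g'.dir hr hp'
    exact ⟨s, h₆, ⟨z, hz⟩, fun g'' hs => H' g'' (g''.up hs h₅)⟩
  choose q hq γ hγ using key
  obtain ⟨β, β', hne, e, r, h₁, h₂⟩ := Cond.cc (mk_Iio_le y) q γ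
  obtain ⟨g', hr, hC⟩ := exists_gen r {σ, lamN, o y, o β, o β', o (γ β).1}
    (Set.toFinite _).countable
  have hf : IsInj g'.E (g'.v σ) (g'.v lamN) (g'.v (o y)) :=
    H g' (g'.up hr (h₁.trans (hq β))) (l3 (hC (by simp)) (hC (by simp)) (hC (by simp)))
  have a₁ := hγ β g' (g'.up hr h₁) (hC (by simp)) (hC (by simp)) (hC (by simp))
  have a₂ := hγ β' g' (g'.up hr h₂) (hC (by simp)) (hC (by simp)) (hC (by simp [e]))
  rw [← e] at a₂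
  exact hne (o_inj (hC (by simp)) (hC (by simp)) (hf.2 _ _ _ a₁ a₂))

theorem w1_limit (hk : o w1 ∈ g.N) : (∃ x, g.E x (g.v (o w1))) ∧
    ∀ x, g.E x (g.v (o w1)) → ∃ y, g.E y (g.v (o w1)) ∧ g.E x y := by
  constructor
  · obtain ⟨x, hx, -⟩ := exists_new countable_empty
    refine dens (Ψ := fun _ E w => ∃ x, E x (w 0)) (UDef.ex (UDef.mem _ _)) (l1 hk)
      fun p _ => ⟨p, le_rfl, {o x}, countable_singleton _, fun g' _ hC hl => ?_⟩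
    exact ⟨_, (o_lt (hC rfl) (hl _ (by simp))).2 hx⟩
  · intro a ha
    obtain ⟨y, hy, hyN, rfl⟩ := (E_o hk).1 ha
    obtain ⟨x, h₁, h₂⟩ := exists_between hy
    refine dens (Ψ := fun _ E w => ∃ x, E x (w 0) ∧ E (w 1) x)
      (UDef.ex ((UDef.mem _ _).and (UDef.mem _ _))) (l2 hk hyN)
      fun p _ => ⟨p, le_rfl, {o x}, countable_singleton _, fun g' _ hC hl => ?_⟩
    exact ⟨_, (o_lt (hC rfl) (hl _ (by simp))).2 h₂, (o_lt (hl _ (by simp)) (hC rfl)).2 h₁⟩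

/-! ### Functions from countable ordinals -/

abbrev YY : Type := Σ y : Iio w1, (Iio y.1 → Iio w1)

instance (y : Iio w1) : Countable (Iio y.1) := (ct_of_lt y.2).to_subtype

theorem mk_YY : #YY ≤ 𝔠 := by
  rw [mk_sigma]
  refine (sum_le_sum _ (fun _ => 𝔠) fun y => ?_).trans ?_
  · rw [← power_def]
    refine (power_le_power_right (mk_Iio_le w1)).trans ?_
    exact (power_le_power_left continuum_ne_zero mk_le_aleph0).trans (by simp)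
  · rw [sum_const']
    exact (mul_le_mul_left (mk_Iio_le w1) _).trans (by simp)

noncomputable def funN (η : YY) : Name Cond :=
  relN (fun z : Iio η.1.1 => o z.1) (fun z => o (η.2 z).1) (fun _ => ⊤)

theorem app_funN {η : YY} (h : funN η ∈ g.N) {s t : g.M} :
    App g.E (g.v (funN η)) s t ↔ ∃ z : Iio η.1.1, s = g.v (o z.1) ∧ t = g.v (o (η.2 z).1) := by
  unfold funN at h ⊢
  rw [app_relN h]
  exact exists_congr fun z =>
    ⟨fun h => h.2.2.2, fun h' => ⟨g.top, (relN_mem h z).1, (relN_mem h z).2, h'⟩⟩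

theorem isFun_funN {η : YY} (h : funN η ∈ g.N) (hy : o η.1.1 ∈ g.N) (hk : o w1 ∈ g.N) :
    IsFun g.E (g.v (funN η)) (g.v (o η.1.1)) (g.v (o w1)) := by
  constructor
  · intro p hp
    obtain ⟨z, -, h₁, h₂, rfl⟩ := (E_relN h).1 hp
    exact ⟨_, _, (o_lt h₁ hy).2 z.2, (o_lt h₂ hk).2 (η.2 z).2, isPair_pr _ _⟩
  · intro a ha
    obtain ⟨z, hz, hzN, rfl⟩ := (E_o hy).1 ha
    refine ⟨_, (app_funN h).2 ⟨⟨z, hz⟩, rfl, rfl⟩, fun b hb => ?_⟩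
    obtain ⟨z', e, rfl⟩ := (app_funN h).1 hb
    obtain rfl : z' = ⟨z, hz⟩ := Subtype.ext (o_inj hzN (relN_mem h z').1 e).symm
    rfl

theorem funN_inj (η η' : YY) (h : funN η ∈ g.N) (h' : funN η' ∈ g.N)
    (e : g.v (funN η) = g.v (funN η')) : η = η' := by
  have key : ∀ (η η' : YY), funN η ∈ g.N → funN η' ∈ g.N → g.v (funN η) = g.v (funN η') →
      ∀ z : Iio η.1.1, ∃ hz : z.1 < η'.1.1, η.2 z = η'.2 ⟨z.1, hz⟩ := by
    intro η η' h h' e z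
    have := (app_funN h).2 ⟨z, rfl, rfl⟩
    rw [e] at this
    obtain ⟨⟨z', hz'⟩, e₁, e₂⟩ := (app_funN h').1 this
    obtain rfl : z.1 = z' := o_inj (relN_mem h z).1 (relN_mem h' ⟨z', hz'⟩).1 e₁
    exact ⟨hz', Subtype.ext (o_inj (relN_mem h z).2 (relN_mem h' ⟨_, hz'⟩).2 e₂)⟩
  obtain ⟨y, f⟩ := η
  obtain ⟨y', f'⟩ := η'
  obtain rfl : y = y' := by
    refine Subtype.ext (le_antisymm (le_of_forall_lt fun z hz => ?_)
      (le_of_forall_lt fun z hz => ?_))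
    · exact (key _ _ h h' e ⟨z, hz⟩).1
    · exact (key _ _ h' h e.symm ⟨z, hz⟩).1
  congr 1
  funext z
  exact (key _ _ h h' e z).2

theorem E_funs (hF : fam funN ∈ g.N) (hk : o w1 ∈ g.N) (f : g.M) :
    g.E f (g.v (fam funN)) ↔ ∃ a, g.E a (g.v (o w1)) ∧ IsFun g.E f a (g.v (o w1)) := by
  constructor
  · intro h
    obtain ⟨η, hη, rfl⟩ := (E_fam hF).1 h
    refine dens (Ψ := fun _ E w => ∃ a, E a (w 1) ∧ IsFun E (w 0) a (w 1))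
      (UDef.ex ((UDef.mem _ _).and (UDef.isFun _ _ _))) (l2 hη hk)
      fun p _ => ⟨p, le_rfl, {o η.1.1}, countable_singleton _, fun g' _ hC hl => ?_⟩
    exact ⟨_, (o_lt (hC rfl) (hl _ (by simp))).2 η.1.2,
      isFun_funN (hl _ (by simp)) (hC rfl) (hl _ (by simp))⟩
  · rintro ⟨a, ha, hf⟩
    obtain ⟨y, hy, hyN, rfl⟩ := (E_o hk).1 ha
    obtain ⟨σ, hσ, rfl⟩ := exists_v f
    refine dens (Ψ := fun _ E w => IsFun E (w 0) (w 1) (w 2) → E (w 0) (w 3))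
      ((UDef.isFun _ _ _).imp (UDef.mem _ _)) (l4 hσ hyN hk hF) (fun p _ => ?_) hf
    have := (ct_of_lt hy).to_subtype
    obtain ⟨q, hq, h, H⟩ := decide_app Cond.closed (J := Iio y) (K := Iio w1) σ
      (fun j _ => o j.1) (fun _ k => o k.1) p
    let η : YY := ⟨⟨y, hy⟩, h⟩
    refine ⟨q, hq, {funN η}, countable_singleton _,
      fun g' hq' hC hl (hf : IsFun g'.E (g'.v σ) (g'.v (o y)) (g'.v (o w1))) => ?_⟩
    have hη : funN η ∈ g'.N := hC rfl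
    have hy' : o y ∈ g'.N := hl _ (by simp)
    have hk' : o w1 ∈ g'.N := hl _ (by simp)
    refine (E_fam (hl _ (by simp))).2 ⟨η, hη, Eq.symm ?_⟩
    refine fun_ext hf (isFun_funN hη hy' hk') fun a b hab => ?_
    obtain ⟨z, rfl, rfl⟩ := (app_funN hη).1 hab
    have hz := relN_mem hη z
    obtain ⟨b, hb, hab⟩ := fun_ex hf ((o_lt hz.1 hy').2 z.2)
    obtain ⟨x, hx, hxN, rfl⟩ := (E_o hk').1 hb
    exact H g' hq' (hl _ (by simp)) z ⟨x, hx⟩ hz.1 hxN hab hz.1 hz.2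

/-! ### The colouring -/

noncomputable def prodN : Name Cond :=
  relN (fun z : XX × XX => o z.1) (fun z => o z.2) (fun _ => ⊤)

noncomputable def cN : Name Cond :=
  relN (fun z : {z : XX × XX × Cond // z.1 ∈ z.2.2.a ∧ z.2.1 ∈ z.2.2.a} =>
    pairN (o z.1.1) (o z.1.2.1)) (fun z => col (z.1.2.2.c z.1.1 z.1.2.1)) (fun z => z.1.2.2)

theorem E_prod (hD : prodN ∈ g.N) (hl : lamN ∈ g.N) (p : g.M) : g.E p (g.v prodN) ↔
    ∃ a b, g.E a (g.v lamN) ∧ g.E b (g.v lamN) ∧ IsPair g.E p a b := by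
  unfold prodN at hD ⊢
  rw [E_relN hD]
  constructor
  · rintro ⟨⟨x, y⟩, -, h₁, h₂, rfl⟩
    exact ⟨_, _, (E_lam hl).2 ⟨x, h₁, rfl⟩, (E_lam hl).2 ⟨y, h₂, rfl⟩, isPair_pr _ _⟩
  · rintro ⟨a, b, ha, hb, e⟩
    obtain ⟨x, hx, rfl⟩ := (E_lam hl).1 ha
    obtain ⟨y, hy, rfl⟩ := (E_lam hl).1 hb
    exact ⟨(x, y), g.top, hx, hy, isPair_iff.1 e⟩

theorem app_cN (hc : cN ∈ g.N) {s t : g.M} : App g.E (g.v cN) s t ↔
    ∃ x y, ∃ p ∈ g.G, x ∈ p.a ∧ y ∈ p.a ∧ o x ∈ g.N ∧ o y ∈ g.N ∧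
      s = pr (g.v (o x)) (g.v (o y)) ∧ t = g.v (col (p.c x y)) := by
  unfold cN at hc ⊢
  rw [app_relN hc]
  constructor
  · rintro ⟨⟨⟨x, y, p⟩, h₁, h₂⟩, hp, h, -, rfl, rfl⟩
    have h := pairN_mem_iff.1 h
    exact ⟨x, y, p, hp, h₁, h₂, h.1, h.2, v_pairN h.1 h.2, rfl⟩
  · rintro ⟨x, y, p, hp, h₁, h₂, h₃, h₄, rfl, rfl⟩
    exact ⟨⟨⟨x, y, p⟩, h₁, h₂⟩, hp, pairN_mem_iff.2 ⟨h₃, h₄⟩, col_mem _, (v_pairN h₃ h₄).symm, rfl⟩

theorem app_cN' (hc : cN ∈ g.N) {x y : XX} (hx : o x ∈ g.N) (hy : o y ∈ g.N) {t : g.M}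
    (h : App g.E (g.v cN) (pr (g.v (o x)) (g.v (o y))) t) :
    ∃ p ∈ g.G, x ∈ p.a ∧ y ∈ p.a ∧ t = g.v (col (p.c x y)) := by
  obtain ⟨x', y', p, hp, h₁, h₂, h₃, h₄, e, rfl⟩ := (app_cN hc).1 h
  obtain ⟨e₁, e₂⟩ := pr_inj.1 e
  obtain rfl := o_inj hx h₃ e₁
  obtain rfl := o_inj hy h₄ e₂
  exact ⟨p, hp, h₁, h₂, rfl⟩

theorem cN_symm (hc : cN ∈ g.N) {a b t : g.M} (h : App g.E (g.v cN) (pr a b) t) :
    App g.E (g.v cN) (pr b a) t := by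
  obtain ⟨x, y, p, hp, h₁, h₂, h₃, h₄, e, rfl⟩ := (app_cN hc).1 h
  obtain ⟨rfl, rfl⟩ := pr_inj.1 e
  exact (app_cN hc).2 ⟨y, x, p, hp, h₂, h₁, h₄, h₃, rfl, by rw [p.c_symm]⟩

theorem isFun_cN (hc : cN ∈ g.N) (hD : prodN ∈ g.N) :
    IsFun g.E (g.v cN) (g.v prodN) (g.v (nN 3)) := by
  constructor
  · intro p hp
    obtain ⟨⟨⟨x, y, q⟩, h₁, h₂⟩, -, h, -, rfl⟩ := (E_relN hc).1 hp
    have h' := pairN_mem_iff.1 h
    refine ⟨_, _, (E_relN hD).2 ⟨(x, y), g.top, h'.1, h'.2, v_pairN h'.1 h'.2⟩,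
      E_nN.2 ⟨_, ?_, rfl⟩, isPair_pr _ _⟩
    cases q.c x y <;> simp
  · intro a ha
    obtain ⟨⟨x, y⟩, -, hx, hy, rfl⟩ := (E_relN hD).1 ha
    have : ∃ b, ∃ p, IsPair g.E p (g.v (o x)) (g.v (o y)) ∧ App g.E (g.v cN) p b := by
      refine dens (Ψ := fun _ E w => ∃ b, ∃ p, IsPair E p (w 1) (w 2) ∧ App E (w 0) p b)
        (UDef.ex (UDef.ex ((UDef.isPair _ _ _).and (UDef.app _ _ _)))) (l3 hc hx hy) fun p _ => ?_
      obtain ⟨q, hq, h⟩ := p.add_set {x, y} (Set.toFinite _).countable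
      refine ⟨q, hq, ∅, countable_empty, fun g' hq' _ hl =>
        ⟨g'.v (col (q.c x y)), _, isPair_pr _ _, ?_⟩⟩
      exact (app_cN (hl _ (by simp))).2 ⟨x, y, q, hq', h (by simp), h (by simp), hl _ (by simp),
        hl _ (by simp), rfl, rfl⟩
    obtain ⟨b, p, e, hb⟩ := this
    obtain rfl := isPair_iff.1 e
    refine ⟨b, hb, fun b' hb' => ?_⟩
    obtain ⟨p, hp, h₁, h₂, rfl⟩ := app_cN' hc hx hy hb
    obtain ⟨q, hq, h₃, h₄, rfl⟩ := app_cN' hc hx hy hb'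
    obtain ⟨r, -, h₅, h₆⟩ := g.dir hp hq
    rw [← Cond.c_le h₅ h₁ h₂, ← Cond.c_le h₆ h₃ h₄]

/-- A monochromatic block: the first `k` values of `f₁` below the remaining values of `f₂`. -/
def Block {M : Type 1} (E : M → M → Prop) (f₁ f₂ c i k t l : M) : Prop :=
  (∀ a, E a t → ∃ b, E b l ∧ App E f₁ a b) ∧ (∀ a, E a t → ∃ b, E b l ∧ App E f₂ a b) ∧
  (∀ a a' b b', App E f₁ a b → App E f₁ a' b' → E a a' → E b b') ∧
  (∀ a a' b b', App E f₂ a b → App E f₂ a' b' → E a a' → E b b') ∧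
  ∀ a b a' b', E a k → App E f₁ a b → E a' t → ¬ E a' k → App E f₂ a' b' →
    E b b' ∧ ∀ p, IsPair E p b b' → App E c p i

theorem udef_block :
    UDef (fun _ E w => Block E (w 0) (w 1) (w 2) (w 3) (w 4) (w 5) (w 6)) := by
  unfold Block
  repeat' first
    | exact UDef.mem _ _ | exact UDef.app _ _ _ | exact UDef.isPair _ _ _ | apply UDef.and
    | apply UDef.not | apply UDef.imp | apply UDef.all | apply UDef.ex

theorem no_block (hc : cN ∈ g.N) (hk : o w1 ∈ g.N) (ht : o tt ∈ g.N) (hl : lamN ∈ g.N)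
    (f₁ f₂ i : g.M) : ¬ Block g.E f₁ f₂ (g.v cN) i (g.v (o w1)) (g.v (o tt)) (g.v lamN) := by
  obtain ⟨σ₁, h₁, rfl⟩ := exists_v f₁
  obtain ⟨σ₂, h₂, rfl⟩ := exists_v f₂
  obtain ⟨ι, h₃, rfl⟩ := exists_v i
  refine dens udef_block.not (l := [σ₁, σ₂, cN, ι, o w1, o tt, lamN])
    (lcons h₁ (lcons h₂ (lcons hc (l4 h₃ hk ht hl)))) fun p _ => ?_
  have : Nonempty XX := ⟨w1⟩
  obtain ⟨q₁, hq₁, h, H⟩ := decide_app Cond.closed (J := ℕ) (K := XX) σ₂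
    (fun n _ => o (uu n)) (fun _ k => o k) p
  have key : ∀ g' : Gen Cond, q₁ ∈ g'.G → (∀ n, o (uu n) ∈ g'.N) → (∀ n, o (h n) ∈ g'.N) →
      (∀ x ∈ [σ₁, σ₂, cN, ι, o w1, o tt, lamN], x ∈ g'.N) →
      Block g'.E (g'.v σ₁) (g'.v σ₂) (g'.v cN) (g'.v ι) (g'.v (o w1)) (g'.v (o tt)) (g'.v lamN) →
      ∀ n, App g'.E (g'.v σ₂) (g'.v (o (uu n))) (g'.v (o (h n))) := by
    intro g' hq hu hh hl hB n
    obtain ⟨b, hb, hab⟩ := hB.2.1 _ ((o_lt (hu n) (hl _ (by simp))).2 (uu_lt n))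
    obtain ⟨x, hx, rfl⟩ := (E_lam (hl _ (by simp))).1 hb
    exact H g' hq (hl _ (by simp)) n x (hu n) hx hab (hu n) (hh n)
  by_cases hinj : Function.Injective h
  swap
  · refine ⟨q₁, hq₁, range (fun n => o (uu n)) ∪ range (fun n => o (h n)),
      (countable_range _).union (countable_range _), fun g' hq hC hl hB => hinj ?_⟩
    have hu : ∀ n, o (uu n) ∈ g'.N := fun n => hC (Or.inl ⟨n, rfl⟩)
    have hh : ∀ n, o (h n) ∈ g'.N := fun n => hC (Or.inr ⟨n, rfl⟩)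
    have K := key g' hq hu hh hl hB
    refine StrictMono.injective fun n m hnm => (o_lt (hh n) (hh m)).1 ?_
    exact hB.2.2.2.1 _ _ _ _ (K n) (K m) ((o_lt (hu n) (hu m)).2 (uu_mono hnm))
  obtain ⟨q₂, hq₂, hS⟩ := q₁.add_seq h hinj
  have := q₂.a_ct.to_subtype
  obtain ⟨q₃, hq₃, h', H'⟩ := decide_app Cond.closed (J := q₂.a) (K := Iio w1) σ₁
    (fun _ k => o k.1) (fun j _ => o j.1) q₂
  obtain ⟨ξ, hξ, hξ'⟩ := exists_new (countable_range fun j => (h' j).1)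
  refine ⟨q₃, hq₃.trans (hq₂.trans hq₁), (range (fun n => o (uu n)) ∪ range (fun n => o (h n))) ∪
    insert (o ξ) (range fun j => o (h' j).1), ((countable_range _).union (countable_range _)).union
      ((countable_range _).insert _), fun g' hq hC hl hB => ?_⟩
  change Block g'.E (g'.v σ₁) (g'.v σ₂) (g'.v cN) (g'.v ι) (g'.v (o w1)) (g'.v (o tt))
    (g'.v lamN) at hB
  have hu : ∀ n, o (uu n) ∈ g'.N := fun n => hC (Or.inl (Or.inl ⟨n, rfl⟩))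
  have hh : ∀ n, o (h n) ∈ g'.N := fun n => hC (Or.inl (Or.inr ⟨n, rfl⟩))
  have hξN : o ξ ∈ g'.N := hC (Or.inr (mem_insert _ _))
  have hk' : o w1 ∈ g'.N := hl _ (by simp)
  have ht' : o tt ∈ g'.N := hl _ (by simp)
  have hq₂' : q₂ ∈ g'.G := g'.up hq hq₃
  have K := key g' (g'.up hq₂' hq₂) hu hh hl hB
  obtain ⟨b, hb, hab⟩ := hB.1 _ ((o_lt hξN ht').2 (hξ.trans (uu_lt 0)))
  obtain ⟨α, hα, rfl⟩ := (E_lam (hl _ (by simp))).1 hb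
  have hnew : α ∉ q₂.a := by
    intro hm
    have hj : o (h' ⟨α, hm⟩).1 ∈ g'.N := hC (Or.inr (Or.inr ⟨_, rfl⟩))
    have := H' g' hq (hl _ (by simp)) ⟨α, hm⟩ ⟨ξ, hξ⟩ hξN hα hab hj hα
    rcases triX ξ (h' ⟨α, hm⟩).1 with e | e | e
    · exact E_irrefl _ (hB.2.2.1 _ _ _ _ hab this ((o_lt hξN hj).2 e))
    · exact hξ' ⟨_, e.symm⟩
    · exact E_irrefl _ (hB.2.2.1 _ _ _ _ this hab ((o_lt hj hξN).2 e))
  have hn : ∀ n, α < h n ∧ ∃ p ∈ g'.G, α ∈ p.a ∧ h n ∈ p.a ∧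
      g'.v ι = g'.v (col (p.c α (h n))) := by
    intro n
    obtain ⟨e₁, e₂⟩ := hB.2.2.2.2 _ _ _ _ ((o_lt hξN hk').2 hξ) hab
      ((o_lt (hu n) ht').2 (uu_lt n)) (fun h => (w1_le_uu n).not_gt ((o_lt (hu n) hk').1 h)) (K n)
    exact ⟨(o_lt hα (hh n)).1 e₁, app_cN' (hl _ (by simp)) hα (hh n) (e₂ _ (isPair_pr _ _))⟩
  obtain ⟨p₀, hp₀, hα₀, -⟩ := (hn 0).2
  obtain ⟨r, hr, hr₁, hr₂⟩ := g'.dir hp₀ hq₂'
  have fin : ∀ b : Bool, g'.v ι = g'.v (col b) := by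
    intro b
    obtain ⟨n, e⟩ := hr₂.prom h hS α (hr₁.a hα₀) hnew (fun n => (hn n).1) b
    obtain ⟨p', hp', h₅, h₆, e'⟩ := (hn n).2
    obtain ⟨s, -, h₇, h₈⟩ := g'.dir hp' hr
    rw [e', ← Cond.c_le h₇ h₅ h₆, Cond.c_le h₈ (hr₁.a hα₀) (hr₂.a (q₂.S_sub h hS n))]
    unfold Cond.c
    rw [if_pos (hn n).1.le, e]
  simpa using col_inj ((fin true).symm.trans (fin false))

theorem lam_trans (hl : lamN ∈ g.N) {a b c : g.M} (hc : g.E c (g.v lamN)) (h₁ : g.E a b)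
    (h₂ : g.E b c) : g.E a c := by
  obtain ⟨x, hx, rfl⟩ := (E_lam hl).1 hc
  exact (isOrd_o hx).1 _ _ h₂ h₁

theorem not_sis (hc : cN ∈ g.N) (hD : prodN ∈ g.N) (hk : o w1 ∈ g.N) (ht : o tt ∈ g.N)
    (hl : lamN ∈ g.N) : ¬ Sis g.E (g.v lamN) (g.v (o tt)) (g.v (nN 3)) := by
  intro h
  obtain ⟨A, B, hA, hB, ⟨f₁, hf₁, -, m₁⟩, ⟨f₂, hf₂, -, m₂⟩, i, hi⟩ :=
    h _ _ (E_prod hD hl) (isFun_cN hc hD)
  have hkt : g.E (g.v (o w1)) (g.v (o tt)) := (o_lt hk ht).2 (uu_lt 0)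
  have key : ∀ (A B f₁ f₂ : g.M), (∀ x, g.E x A → g.E x (g.v lamN)) →
      (∀ x, g.E x B → g.E x (g.v lamN)) → IsFun g.E f₁ (g.v (o tt)) A →
      IsFun g.E f₂ (g.v (o tt)) B →
      (∀ a a' b b', App g.E f₁ a b → App g.E f₁ a' b' → g.E a a' → g.E b b') →
      (∀ a a' b b', App g.E f₂ a b → App g.E f₂ a' b' → g.E a a' → g.E b b') →
      (∀ a b, g.E a A → g.E b B → App g.E (g.v cN) (pr a b) i) →
      ∀ b₀, App g.E f₂ (g.v (o w1)) b₀ →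
      ¬ ∀ a b, g.E a (g.v (o w1)) → App g.E f₁ a b → g.E b b₀ := by
    intro A B f₁ f₂ hA hB hf₁ hf₂ m₁ m₂ hi b₀ hb₀ H
    refine no_block hc hk ht hl f₁ f₂ i ⟨fun a ha => ?_, fun a ha => ?_, m₁, m₂,
      fun a b a' b' ha hab ha' ha'' hab' => ⟨?_, fun p hp => ?_⟩⟩
    · obtain ⟨b, hb, h⟩ := fun_ex hf₁ ha
      exact ⟨b, hA b hb, h⟩
    · obtain ⟨b, hb, h⟩ := fun_ex hf₂ ha
      exact ⟨b, hB b hb, h⟩
    · rcases (isOrd_o ht).2 _ _ ha' hkt with e | rfl | e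
      · exact absurd e ha''
      · exact fun_uniq hf₂ hb₀ hab' ▸ H a b ha hab
      · exact lam_trans hl (hB _ (fun_mem hf₂ hab').2) (H a b ha hab) (m₂ _ _ _ _ hb₀ hab' e)
    · rw [isPair_iff.1 hp]
      exact hi _ _ (fun_mem hf₁ hab).2 (fun_mem hf₂ hab').2
  obtain ⟨a₀, ha₀, h₁⟩ := fun_ex hf₁ hkt
  obtain ⟨b₀, hb₀, h₂⟩ := fun_ex hf₂ hkt
  have hi' : ∀ a b, g.E a A → g.E b B → App g.E (g.v cN) (pr a b) i :=
    fun a b ha hb => hi a b _ ha hb (isPair_pr _ _)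
  have K := key A B f₁ f₂ hA hB hf₁ hf₂ m₁ m₂ hi' b₀ h₂
  push Not at K
  obtain ⟨a, b, ha, hab, hb⟩ := K
  refine key B A f₂ f₁ hB hA hf₂ hf₁ m₂ m₁ (fun a b ha hb => cN_symm hc (hi' b a hb ha)) a₀ h₁
    fun a' b' ha' hab' => ?_
  have e₁ : g.E b' b₀ := m₂ _ _ _ _ hab' h₂ ha'
  have e₂ : g.E b a₀ := m₁ _ _ _ _ hab h₁ ha
  have hbl := hA _ (fun_mem hf₁ hab).2
  rcases (isOrd_lam hl).2 _ _ hbl (hB _ hb₀) with e | rfl | e
  · exact absurd e hb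
  · exact lam_trans hl (hA _ ha₀) e₁ e₂
  · exact lam_trans hl (hA _ ha₀) (lam_trans hl hbl e₁ e) e₂

theorem main : ∃ (M : Type 1) (E : M → M → Prop), IsZFC E ∧ ∃ k l t th : M,
    IsCard E k ∧ ((∃ x, E x k) ∧ ∀ x, E x k → ∃ y, E y k ∧ E x y) ∧
    (∃ F j, (∀ f, E f F ↔ ∃ a, E a k ∧ IsFun E f a k) ∧ IsInj E j F k) ∧
    IsCard E l ∧ E k l ∧ (∀ m, IsCard E m → E k m → ¬ E m l) ∧
    E t l ∧
    (IsOrd E th ∧ ∃ x y z, x ≠ y ∧ x ≠ z ∧ y ≠ z ∧ ∀ w, E w th ↔ w = x ∨ w = y ∨ w = z) ∧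
    ¬ Sis E l t th := by
  obtain ⟨e⟩ := exists_emb mk_YY
  obtain ⟨g, -, hC⟩ := exists_gen (⊤ : Cond) {cN, prodN, o w1, o tt, lamN, fam funN, injN funN e}
    (Set.toFinite _).countable
  have hc : cN ∈ g.N := hC (by simp)
  have hD : prodN ∈ g.N := hC (by simp)
  have hk : o w1 ∈ g.N := hC (by simp)
  have ht : o tt ∈ g.N := hC (by simp)
  have hl : lamN ∈ g.N := hC (by simp)
  have hF : fam funN ∈ g.N := hC (by simp)
  have hj : injN funN e ∈ g.N := hC (by simp)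
  exact ⟨g.M, g.E, g.isZFC, g.v (o w1), g.v lamN, g.v (o tt), g.v (nN 3), isCard_w1 hk,
    w1_limit hk, ⟨_, _, E_funs hF hk, isInj_injN hj hF hk funN_inj⟩, isCard_lam hl,
    (E_lam hl).2 ⟨_, hk, rfl⟩, no_card_between hk hl, (E_lam hl).2 ⟨_, ht, rfl⟩, three_spec,
    not_sis hc hD hk ht hl⟩

end Pool.Agent.MP_c6cf52_lc
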