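import Pool.Agent.MP_c6cf52_lc.Fml

namespace Pool.Agent.MP_c6cf52_lc

universe u v

/-- `P`-names. -/
inductive Name (P : Type u) : Type (u + 1)
  | mk (ι : Type u) (A : ι → Name P) (B : ι → P) : Name P

namespace Name

variable {P : Type u}

def I : Name P → Type u
  | mk ι _ _ => ι

def A : (τ : Name P) → τ.I → Name P
  | mk _ A _ => A

def B : (τ : Name P) → τ.I → P
  | mk _ _ B => B

@[simp] theorem A_mk (ι : Type u) (A : ι → Name P) (B : ι → P) : (mk ι A B).A = A := rfl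
@[simp] theorem B_mk (ι : Type u) (A : ι → Name P) (B : ι → P) : (mk ι A B).B = B := rfl

theorem ind {C : Name P → Prop} (h : ∀ τ : Name P, (∀ i, C (τ.A i)) → C τ) : ∀ τ, C τ := by
  intro τ
  induction τ with
  | mk ι A B ih => exact h _ ih

section Order

variable [Preorder P]

def FEq : Name P → Name P → P → Prop
  | mk _ A B, mk _ A' B', p =>
    (∀ i, ∀ q ≤ p, q ≤ B i → ∃ r ≤ q, ∃ j, r ≤ B' j ∧ FEq (A i) (A' j) r) ∧
    (∀ j, ∀ q ≤ p, q ≤ B' j → ∃ r ≤ q, ∃ i, r ≤ B i ∧ FEq (A i) (A' j) r)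

def FMem (σ τ : Name P) (p : P) : Prop :=
  ∀ q ≤ p, ∃ r ≤ q, ∃ j, r ≤ τ.B j ∧ FEq σ (τ.A j) r

theorem feq_def (σ τ : Name P) (p : P) : FEq σ τ p ↔
    (∀ i, ∀ q ≤ p, q ≤ σ.B i → ∃ r ≤ q, ∃ j, r ≤ τ.B j ∧ FEq (σ.A i) (τ.A j) r) ∧
    (∀ j, ∀ q ≤ p, q ≤ τ.B j → ∃ r ≤ q, ∃ i, r ≤ σ.B i ∧ FEq (σ.A i) (τ.A j) r) := by
  cases σ; cases τ; rfl

theorem FEq.symm : ∀ {σ τ : Name P} {p : P}, FEq σ τ p → FEq τ σ p := by
  intro σ
  induction σ using Name.ind with
  | h σ ih =>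
    intro τ p h
    rw [feq_def] at h ⊢
    refine ⟨fun j q hq hj => ?_, fun i q hq hi => ?_⟩
    · obtain ⟨r, hr, i, hi, e⟩ := h.2 j q hq hj
      exact ⟨r, hr, i, hi, ih i e⟩
    · obtain ⟨r, hr, j, hj, e⟩ := h.1 i q hq hi
      exact ⟨r, hr, j, hj, ih i e⟩

theorem FEq.mono {σ τ : Name P} {p q : P} (h : FEq σ τ p) (hq : q ≤ p) : FEq σ τ q := by
  rw [feq_def] at h ⊢
  exact ⟨fun i r hr => h.1 i r (hr.trans hq), fun j r hr => h.2 j r (hr.trans hq)⟩

theorem FMem.mono {σ τ : Name P} {p q : P} (h : FMem σ τ p) (hq : q ≤ p) : FMem σ τ q :=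
  fun r hr => h r (hr.trans hq)

theorem feq_iff (σ τ : Name P) (p : P) : FEq σ τ p ↔
    (∀ i, ∀ q ≤ p, q ≤ σ.B i → FMem (σ.A i) τ q) ∧
    (∀ j, ∀ q ≤ p, q ≤ τ.B j → FMem (τ.A j) σ q) := by
  rw [feq_def]
  constructor
  · rintro ⟨h₁, h₂⟩
    refine ⟨fun i q hq hi r hr => h₁ i r (hr.trans hq) (hr.trans hi), fun j q hq hj r hr => ?_⟩
    obtain ⟨s, hs, i, hi, e⟩ := h₂ j r (hr.trans hq) (hr.trans hj)
    exact ⟨s, hs, i, hi, e.symm⟩
  · rintro ⟨h₁, h₂⟩
    refine ⟨fun i q hq hi => h₁ i q hq hi q le_rfl, fun j q hq hj => ?_⟩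
    obtain ⟨s, hs, i, hi, e⟩ := h₂ j q hq hj q le_rfl
    exact ⟨s, hs, i, hi, e.symm⟩

theorem FMem.reg {σ τ : Name P} {p : P} (h : ∀ q ≤ p, ∃ r ≤ q, FMem σ τ r) : FMem σ τ p := by
  intro q hq
  obtain ⟨r, hr, h⟩ := h q hq
  obtain ⟨s, hs, h⟩ := h r le_rfl
  exact ⟨s, hs.trans hr, h⟩

theorem FEq.reg {σ τ : Name P} {p : P} (h : ∀ q ≤ p, ∃ r ≤ q, FEq σ τ r) : FEq σ τ p := by
  rw [feq_iff]
  refine ⟨fun i q hq hi => FMem.reg fun s hs => ?_, fun j q hq hj => FMem.reg fun s hs => ?_⟩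
  · obtain ⟨r, hr, e⟩ := h s (hs.trans hq)
    exact ⟨r, hr, ((feq_iff _ _ _).1 e).1 i r le_rfl (hr.trans (hs.trans hi))⟩
  · obtain ⟨r, hr, e⟩ := h s (hs.trans hq)
    exact ⟨r, hr, ((feq_iff _ _ _).1 e).2 j r le_rfl (hr.trans (hs.trans hj))⟩

theorem FMem.of_feq {σ τ : Name P} {p : P} {j : τ.I} (hj : p ≤ τ.B j) (e : FEq σ (τ.A j) p) :
    FMem σ τ p := fun q hq => ⟨q, le_rfl, j, hq.trans hj, e.mono hq⟩

def Forces : Fml → (ℕ → Name P) → P → Prop
  | .mem i j, w, p => FMem (w i) (w j) p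
  | .eq i j, w, p => FEq (w i) (w j) p
  | .bot, _, _ => False
  | .imp φ ψ, w, p => ∀ q ≤ p, Forces φ w q → Forces ψ w q
  | .all φ, w, p => ∀ τ, Forces φ (cons τ w) p

theorem Forces.mono : ∀ {φ : Fml} {w : ℕ → Name P} {p q : P},
    Forces φ w p → q ≤ p → Forces φ w q := by
  intro φ
  induction φ with
  | mem i j => intro w p q h hq; exact FMem.mono h hq
  | eq i j => intro w p q h hq; exact FEq.mono h hq
  | bot => intro w p q h _; exact h
  | imp φ ψ _ _ => intro w p q h hq r hr; exact h r (hr.trans hq)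
  | all φ ih => intro w p q h hq τ; exact ih (h τ) hq

theorem Forces.reg : ∀ {φ : Fml} {w : ℕ → Name P} {p : P},
    (∀ q ≤ p, ∃ r ≤ q, Forces φ w r) → Forces φ w p := by
  intro φ
  induction φ with
  | mem i j => intro w p h; exact FMem.reg h
  | eq i j => intro w p h; exact FEq.reg h
  | bot => intro w p h; obtain ⟨_, _, h⟩ := h p le_rfl; exact h
  | imp φ ψ _ ih₂ =>
    intro w p h q hq hφ
    refine ih₂ fun r hr => ?_
    obtain ⟨s, hs, h⟩ := h r (hr.trans hq)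
    exact ⟨s, hs, h s le_rfl (hφ.mono (hs.trans hr))⟩
  | all φ ih =>
    intro w p h τ
    refine ih fun q hq => ?_
    obtain ⟨r, hr, h⟩ := h q hq
    exact ⟨r, hr, h τ⟩

end Order

/-! ### Special names -/

def emp : Name P := mk PEmpty PEmpty.elim PEmpty.elim

instance : Inhabited (Name P) := ⟨emp⟩

open Classical in
noncomputable def child (k : ℕ) (τ : Name P) : Name P :=
  if h : ∃ f : ℕ → τ.I, Function.Surjective f then τ.A (h.choose k) else emp

def subN (τ : Name P) (S : Set (τ.I × P)) : Name P :=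
  mk S (fun x => τ.A x.1.1) (fun x => x.1.2)

variable [Preorder P]

def sepN (τ : Name P) (φ : Fml) (l : List (Name P)) : Name P :=
  subN τ {x | x.2 ≤ τ.B x.1 ∧ Forces φ (env emp (τ.A x.1 :: l)) x.2}

def subOf (τ σ : Name P) : Name P := subN τ {x | FMem (τ.A x.1) σ x.2}

open Classical in
noncomputable def wit (φ : Fml) (l : List (Name P)) (q : P) : Name P :=
  if h : ∃ ρ, Forces φ (env emp (ρ :: l)) q then h.choose else emp

theorem wit_spec {φ : Fml} {l : List (Name P)} {q : P} {ρ : Name P}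
    (h : Forces φ (env emp (ρ :: l)) q) : Forces φ (env emp (wit φ l q :: l)) q := by
  have h' : ∃ ρ, Forces φ (env emp (ρ :: l)) q := ⟨ρ, h⟩
  unfold wit
  rw [dif_pos h']
  exact h'.choose_spec

variable [OrderTop P]

/-- The name of the set of (the values of) a family of names. -/
def fam {ι : Type u} (A : ι → Name P) : Name P := mk ι A (fun _ => ⊤)

def upair (σ τ : Name P) : Name P := fam (fun b : ULift.{u} Bool => cond b.down σ τ)

def pairN (σ τ : Name P) : Name P := upair (upair σ σ) (upair σ τ)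

def unionN (τ : Name P) : Name P := fam (fun x : Σ i : τ.I, (τ.A i).I => (τ.A x.1).A x.2)

def powN (τ : Name P) : Name P := fam (subN τ)

noncomputable def collN (τ : Name P) (φ : Fml) (l : List (Name P)) : Name P :=
  fam (fun x : τ.I × P => wit φ (τ.A x.1 :: l) x.2)

noncomputable def ordN {X : Type u} {r : X → X → Prop} (wf : WellFounded r) : X → Name P :=
  wf.fix (fun x ih => fam (fun y : {y // r y x} => ih y.1 y.2))

noncomputable def setN {X : Type u} {r : X → X → Prop} (wf : WellFounded r) (s : Set X) :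
    Name P :=
  fam (fun y : s => ordN wf y.1)

theorem ordN_eq {X : Type u} {r : X → X → Prop} (wf : WellFounded r) (x : X) :
    (ordN wf x : Name P) = setN wf {y | r y x} := by
  unfold ordN
  rw [wf.fix_eq]
  rfl

theorem natWf : WellFounded (fun a b : ULift.{u} ℕ => a.down < b.down) :=
  InvImage.wf ULift.down Nat.lt_wfRel.wf

theorem woWf (X : Type u) : WellFounded (WellOrderingRel : X → X → Prop) :=
  (inferInstance : IsWellOrder X WellOrderingRel).wf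

noncomputable def enumN (τ : Name P) : Name P :=
  fam (fun j : τ.I => pairN (ordN (woWf τ.I) j) (τ.A j))

open Classical in
noncomputable def idxN (τ σ : Name P) : Name P :=
  if h : ∃ j, τ.A j = σ then pairN (ordN (woWf τ.I) h.choose) (τ.A h.choose) else emp

/-- The closure operations. -/
noncomputable def op (t : ℕ) (φ : Fml) (k : ℕ) (l : List (Name P)) : Name P :=
  match t with
  | 0 => emp
  | 1 => upair (env emp l 0) (env emp l 1)
  | 2 => unionN (env emp l 0)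
  | 3 => sepN (env emp l 0) φ l.tail
  | 4 => powN (env emp l 0)
  | 5 => subOf (env emp l 0) (env emp l 1)
  | 6 => collN (env emp l 0) φ l.tail
  | 7 => setN natWf Set.univ
  | 8 => child k (env emp l 0)
  | 9 => enumN (env emp l 0)
  | _ => idxN (env emp l 0) (env emp l 1)

def reqMem (σ τ : Name P) (q : P) (ρ : Name P) : Prop :=
  (∀ r ≤ q, ¬ FMem σ τ r) ∨ ∃ i, q ≤ τ.B i ∧ FEq σ (τ.A i) q ∧ ρ = τ.A i

def reqEq (σ τ : Name P) (q : P) (ρ : Name P) : Prop :=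
  FEq σ τ q ∨ (∃ i, q ≤ σ.B i ∧ (∀ r ≤ q, ¬ FMem (σ.A i) τ r) ∧ ρ = σ.A i) ∨
    (∃ i, q ≤ τ.B i ∧ (∀ r ≤ q, ¬ FMem (τ.A i) σ r) ∧ ρ = τ.A i)

def reqDec (φ : Fml) (l : List (Name P)) (q : P) : Prop :=
  Forces φ (env emp l) q ∨ ∀ r ≤ q, ¬ Forces φ (env emp l) r

def reqWit (φ : Fml) (l : List (Name P)) (q : P) (ρ : Name P) : Prop :=
  (Forces φ (env emp (ρ :: l)) q ∧ ρ = wit φ l q) ∨
    ∀ r ≤ q, ∀ ρ', ¬ Forces φ (env emp (ρ' :: l)) r

/-- The basic requirements. -/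
def basic (t : ℕ) (φ : Fml) (k : ℕ) (l : List (Name P)) (q : P) (ρ : Name P) : Prop :=
  match t with
  | 0 => reqMem (env emp l 0) (env emp l 1) q ρ
  | 1 => reqEq (env emp l 0) (env emp l 1) q ρ
  | 2 => reqDec φ l q
  | 3 => reqWit φ l q ρ
  | t + 4 => ρ = op t φ k l

omit [OrderTop P] in
theorem reqMem_dense (σ τ : Name P) (p : P) : ∃ q ≤ p, ∃ ρ, reqMem σ τ q ρ := by
  by_cases h : ∀ r ≤ p, ¬ FMem σ τ r
  · exact ⟨p, le_rfl, emp, Or.inl h⟩
  · push Not at h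
    obtain ⟨r, hr, h⟩ := h
    obtain ⟨s, hs, j, hj, e⟩ := h r le_rfl
    exact ⟨s, hs.trans hr, _, Or.inr ⟨j, hj, e, rfl⟩⟩

omit [OrderTop P] in
theorem exists_not_fmem {σ τ : Name P} {q : P} (h : ¬ FMem σ τ q) :
    ∃ r ≤ q, ∀ s ≤ r, ¬ FMem σ τ s := by
  by_contra h'
  push Not at h'
  exact h (FMem.reg h')

omit [OrderTop P] in
theorem reqEq_dense (σ τ : Name P) (p : P) : ∃ q ≤ p, ∃ ρ, reqEq σ τ q ρ := by
  by_cases h : FEq σ τ p
  · exact ⟨p, le_rfl, emp, Or.inl h⟩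
  · rw [feq_iff, not_and_or] at h
    rcases h with h | h
    · push Not at h
      obtain ⟨i, q, hq, hi, h⟩ := h
      obtain ⟨r, hr, h⟩ := exists_not_fmem h
      exact ⟨r, hr.trans hq, _, Or.inr (Or.inl ⟨i, hr.trans hi, h, rfl⟩)⟩
    · push Not at h
      obtain ⟨i, q, hq, hi, h⟩ := h
      obtain ⟨r, hr, h⟩ := exists_not_fmem h
      exact ⟨r, hr.trans hq, _, Or.inr (Or.inr ⟨i, hr.trans hi, h, rfl⟩)⟩

theorem basic_dense (t : ℕ) (φ : Fml) (k : ℕ) (l : List (Name P)) (p : P) :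
    ∃ q ≤ p, ∃ ρ, basic t φ k l q ρ := by
  match t with
  | 0 => exact reqMem_dense _ _ p
  | 1 => exact reqEq_dense _ _ p
  | 2 =>
    by_cases h : ∀ r ≤ p, ¬ Forces φ (env emp l) r
    · exact ⟨p, le_rfl, emp, Or.inr h⟩
    · push Not at h
      obtain ⟨r, hr, h⟩ := h
      exact ⟨r, hr, emp, Or.inl h⟩
  | 3 =>
    by_cases h : ∀ r ≤ p, ∀ ρ', ¬ Forces φ (env emp (ρ' :: l)) r
    · exact ⟨p, le_rfl, emp, Or.inr h⟩
    · push Not at h
      obtain ⟨r, hr, ρ, h⟩ := h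
      exact ⟨r, hr, _, Or.inl ⟨wit_spec h, rfl⟩⟩
  | t + 4 => exact ⟨p, le_rfl, _, rfl⟩

end Name

/-- Bookkeeping: a decreasing sequence and a set meeting countably many requirements. -/
theorem exists_generic {P : Type u} [Preorder P] {α : Type v} [Inhabited α] {ι : Type*}
    [Countable ι] [Nonempty ι] (D : ι → List α → P → α → Prop)
    (hD : ∀ i l p, ∃ q ≤ p, ∃ a, D i l q a) (p₀ : P) :
    ∃ (N : Set α) (s : ℕ → P), Antitone s ∧ s 0 = p₀ ∧
      ∀ i l, (∀ x ∈ l, x ∈ N) → ∃ n, ∃ a ∈ N, D i l (s n) a := by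
  classical
  obtain ⟨e, he⟩ := exists_surjective_nat (ι × List ℕ)
  choose q hq a ha using hD
  let step : ℕ → P × (ℕ → α) → P × (ℕ → α) := fun n st =>
    (q (e n.unpair.1).1 ((e n.unpair.1).2.map st.2) st.1,
      Function.update st.2 n (a (e n.unpair.1).1 ((e n.unpair.1).2.map st.2) st.1))
  let S : ℕ → P × (ℕ → α) := fun n => Nat.rec (p₀, fun _ => default) step n
  have hS : ∀ n, S (n + 1) = step n (S n) := fun n => rfl
  let τ : ℕ → α := fun n => (S (n + 1)).2 n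
  have stable : ∀ k n, k < n → (S n).2 k = τ k := by
    intro k n hkn
    induction n, hkn using Nat.le_induction with
    | base => rfl
    | succ n hn ih =>
      rw [hS]
      simp only [step]
      rw [Function.update_of_ne (by omega)]
      exact ih
  refine ⟨Set.range τ, fun n => (S n).1, antitone_nat_of_succ_le fun n => ?_, rfl, ?_⟩
  · rw [hS]; exact hq _ _ _
  · intro i l hl
    obtain ⟨ks, rfl⟩ : ∃ ks : List ℕ, l = ks.map τ := by
      induction l with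
      | nil => exact ⟨[], rfl⟩
      | cons x l ih =>
        obtain ⟨ks, rfl⟩ := ih fun y hy => hl y (List.mem_cons_of_mem _ hy)
        obtain ⟨k, rfl⟩ := hl x List.mem_cons_self
        exact ⟨k :: ks, rfl⟩
    obtain ⟨m, hm⟩ := he (i, ks)
    let n := Nat.pair m (ks.sum + 1)
    have hn : ks.map (S n).2 = ks.map τ := by
      refine List.map_congr_left fun k hk => stable k n ?_
      have h₁ := List.single_le_sum (l := ks) (fun _ _ => Nat.zero_le _) k hk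
      have h₂ := Nat.right_le_pair m (ks.sum + 1)
      omega
    refine ⟨n + 1, τ n, ⟨n, rfl⟩, ?_⟩
    have h := ha i (ks.map τ) (S n).1
    have e1 : n.unpair.1 = m := by simp [n]
    have e2 : (S (n + 1)).1 = q i (ks.map τ) (S n).1 := by
      rw [hS]; simp only [step, e1, hm, hn]
    have e3 : τ n = a i (ks.map τ) (S n).1 := by
      show (S (n + 1)).2 n = _
      rw [hS]; simp only [step, e1, hm, hn, Function.update_self]
    show D i (ks.map τ) (S (n + 1)).1 (τ n)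
    rw [e2, e3]
    exact h

/-- A filter on `P` that is generic over a set of names with enough closure properties. -/
structure Gen (P : Type u) [Preorder P] [OrderTop P] where
  N : Set (Name P)
  G : Set P
  up : ∀ {p q}, p ∈ G → p ≤ q → q ∈ G
  dir : ∀ {p q}, p ∈ G → q ∈ G → ∃ r ∈ G, r ≤ p ∧ r ≤ q
  top : ⊤ ∈ G
  meets : ∀ t φ k l, (∀ x ∈ l, x ∈ N) → ∃ q ∈ G, ∃ ρ ∈ N, Name.basic t φ k l q ρ

theorem exists_gen {P : Type u} [Preorder P] [OrderTop P] (p : P) (C : Set (Name P))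
    (hC : C.Countable) : ∃ g : Gen P, p ∈ g.G ∧ C ⊆ g.N := by
  have := hC.to_subtype
  let D : (ℕ × Fml × ℕ) ⊕ C → List (Name P) → P → Name P → Prop := fun i l q ρ =>
    match i with
    | .inl i => Name.basic i.1 i.2.1 i.2.2 l q ρ
    | .inr c => ρ = c.1
  have : Nonempty ((ℕ × Fml × ℕ) ⊕ C) := ⟨.inl (0, .bot, 0)⟩
  obtain ⟨N, s, hs, h0, h⟩ := exists_generic D (by
    rintro (i | c) l p
    · exact Name.basic_dense _ _ _ _ _
    · exact ⟨p, le_rfl, _, rfl⟩) p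
  refine ⟨⟨N, {q | ∃ n, s n ≤ q}, ?_, ?_, ⟨0, le_top⟩, ?_⟩, ⟨0, h0.le⟩, ?_⟩
  · rintro p q ⟨n, hn⟩ hpq
    exact ⟨n, hn.trans hpq⟩
  · rintro p q ⟨n, hn⟩ ⟨m, hm⟩
    exact ⟨s (max n m), ⟨_, le_rfl⟩, (hs (le_max_left _ _)).trans hn,
      (hs (le_max_right _ _)).trans hm⟩
  · intro t φ k l hl
    obtain ⟨n, a, ha, h⟩ := h (.inl (t, φ, k)) l hl
    exact ⟨s n, ⟨n, le_rfl⟩, a, ha, h⟩
  · intro c hc
    obtain ⟨n, a, ha, h⟩ := h (.inr ⟨c, hc⟩) [] (by simp)
    exact (show a = c from h) ▸ ha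

end Pool.Agent.MP_c6cf52_lc
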