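import Pool.Agent.MP_c6cf52_lc.Main

open Pool.Agent.MP_c6cf52_lc

theorem Pool.Agent.Results.MP_c6cf52_lc.NotSis.result :
    ∃ (M : Type 1) (E : M → M → Prop), IsZFC E ∧ ∃ k l t th : M,
      IsCard E k ∧ ((∃ x, E x k) ∧ ∀ x, E x k → ∃ y, E y k ∧ E x y) ∧
      (∃ F j, (∀ f, E f F ↔ ∃ a, E a k ∧ IsFun E f a k) ∧ IsInj E j F k) ∧
      IsCard E l ∧ E k l ∧ (∀ m, IsCard E m → E k m → ¬ E m l) ∧
      E t l ∧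
      (IsOrd E th ∧ ∃ x y z, x ≠ y ∧ x ≠ z ∧ y ≠ z ∧ ∀ w, E w th ↔ w = x ∨ w = y ∨ w = z) ∧
      ¬ Sis E l t th :=
  Pool.Agent.MP_c6cf52_lc.main
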