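import Pool.Agent.MP_c6cf52_lc.Auto

namespace Pool.Agent.MP_c6cf52_lc

open Name

universe u v w

namespace Gen

variable {P : Type u} [Preorder P] [OrderTop P] {g : Gen P}

open Cd

theorem E_trans {A x y z : g.M} (h : IsOrd g.E A) (hz : g.E z A) (hxy : g.E x y)
    (hyz : g.E y z) : g.E x z := by
  rcases h.2 x z (h.1 _ _ (h.1 _ _ hz hyz) hxy) hz with e | rfl | e
  · exact e
  · exact (E_wf.asymmetric _ _ hxy hyz).elim
  · exact (E_wf.asymmetric₃ _ _ _ hxy hyz e).elim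

theorem isOrd_of_E {A a : g.M} (h : IsOrd g.E A) (ha : g.E a A) : IsOrd g.E a :=
  ⟨fun _ _ hx hy => E_trans h ha hy hx, fun _ _ hx hy => h.2 _ _ (h.1 _ _ ha hx) (h.1 _ _ ha hy)⟩

/-- The first uncountable cardinal of the model. -/
structure W1 (g : Gen P) where
  w : g.M
  card : IsCard g.E w
  om_mem : g.E g.om w
  least : ∀ m, IsCard g.E m → g.E g.om m → ¬ g.E m w

namespace W1

variable (W : W1 g)

/-- The countable ordinals of the model. -/
def T : Type (u + 1) := g.Elt W.w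

instance : Cd g W.T := inferInstanceAs (Cd g (g.Elt W.w))

instance : Bd g W.T := inferInstanceAs (Bd g (g.Elt W.w))

instance : IsWellOrder W.T (fun a b => g.E (ι a) (ι b)) where
  wf := InvImage.wf _ E_wf
  trichotomous := fun a b h₁ h₂ => by
    rcases W.card.1.2 _ _ a.2 b.2 with h | h | h
    exacts [absurd h h₁, Subtype.ext h, absurd h h₂]

noncomputable instance : LinearOrder W.T := IsWellOrder.linearOrder (fun a b => g.E (ι a) (ι b))

instance : Nonempty W.T := ⟨⟨g.om, W.om_mem⟩⟩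

variable {W}

theorem lt_def {a b : W.T} : a < b ↔ g.E (ι a) (ι b) := Iff.rfl

instance : WellFoundedLT W.T := ⟨InvImage.wf (fun a : W.T => (ι a : g.M)) E_wf⟩

theorem ι_mem (a : W.T) : g.E (ι a) W.w := a.2

theorem exists_T {x : g.M} (h : g.E x W.w) : ∃ a : W.T, ι a = x := ⟨⟨x, h⟩, rfl⟩

section

variable {Γ : Type*} {α : Type*} [Cd g Γ] [Cd g α]

@[fun_prop] theorem tm_lt {f h : Γ → W.T} (hf : g.Tm f) (hh : g.Tm h) :
    g.Tm (fun x => f x < h x) := tm_E hf.ι hh.ι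

@[fun_prop] theorem tm_le {f h : Γ → W.T} (hf : g.Tm f) (hh : g.Tm h) :
    g.Tm (fun x => f x ≤ h x) := ((tm_lt hh hf).df.not.congr fun _ => not_lt).tm

theorem ctbl_mem (a : g.M) (ha : g.E a W.w) :
    ∃ f : g.M → ℕ, g.Tm f ∧ ∀ x y, g.E x a → g.E y a → f x = f y → x = y := by
  induction a using E_wf.induction with
  | _ a ih =>
  have key : (∀ x, g.E x a → g.E x g.om) →
      ∃ f : g.M → ℕ, g.Tm f ∧ ∀ x y, g.E x a → g.E y a → f x = f y → x = y := fun h => by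
    refine ⟨fun x => un ℕ x, by fun_prop, fun x y hx hy e => ?_⟩
    obtain ⟨n, rfl⟩ := E_om.1 (h x hx)
    obtain ⟨m, rfl⟩ := E_om.1 (h y hy)
    dsimp only at e
    rw [← ι_nat, ← ι_nat, un_ι, un_ι] at e
    rw [e]
  rcases W.card.1.2 _ _ ha W.om_mem with h | h | h
  · exact key fun x hx => E_trans W.card.1 W.om_mem hx h
  · exact key fun x hx => h ▸ hx
  · have h₁ : ¬ IsCard g.E a := fun hc => W.least a hc h ha
    have h₂ : ∃ b, g.E b a ∧ ∃ F, IsInj g.E F a b := by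
      by_contra h'
      exact h₁ ⟨isOrd_of_E W.card.1 ha, fun b hb hF => h' ⟨b, hb, hF⟩⟩
    obtain ⟨b, hb, F, hF⟩ := h₂
    obtain ⟨f, hf, h⟩ := ih b hb (W.card.1.1 _ _ ha hb)
    refine ⟨fun x => f (ev g.M g.M F x), by fun_prop, fun x y hx hy e => ?_⟩
    have h₁ := app_ev hF.1 hx
    have h₂ := app_ev hF.1 hy
    exact hF.2 _ _ _ h₁ (h _ _ (fun_mem hF.1 h₁).2 (fun_mem hF.1 h₂).2 e ▸ h₂)

theorem exists_e : ∃ e : W.T → W.T → ℕ, g.Tm (fun z : W.T × W.T => e z.1 z.2) ∧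
    ∀ a x y, x < a → y < a → e a x = e a y → x = y := by
  refine tm_choice_fun (Q := fun a f => ∀ x y, x < a → y < a → f x = f y → x = y)
    (by fun_prop) fun a => ?_
  obtain ⟨f, hf, h⟩ := ctbl_mem (ι a) (ι_mem a)
  exact ⟨fun x => f (ι x), by fun_prop, fun x y hx hy e => inj (h _ _ hx hy e)⟩

theorem not_inj {f : W.T → ℕ} (hf : g.Tm f) : ¬ Function.Injective f := fun h => by
  refine W.card.2 _ W.om_mem (ctbl_iff.2 ⟨fun x => f (un W.T x), by fun_prop, ?_⟩)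
  intro x y hx hy e
  obtain ⟨a, rfl⟩ := exists_T hx
  obtain ⟨b, rfl⟩ := exists_T hy
  simp only [un_ι] at e
  rw [h e]

theorem reg {t : ℕ → W.T} (ht : g.Tm t) : ∃ b, ∀ n, t n < b := by
  by_contra h
  push Not at h
  obtain ⟨n, hn, h⟩ := tm_choice (Q := fun b n => b ≤ t n) (by fun_prop) h
  obtain ⟨e, he, he'⟩ := exists_e (W := W)
  refine not_inj (f := fun b => Nat.pair (n b) (if b = t (n b) then 0 else e (t (n b)) b + 1))
    (by fun_prop) fun a b hab => ?_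
  obtain ⟨h₁, h₂⟩ := Nat.pair_eq_pair.1 hab
  have ha := h a
  have hb := h b
  rw [h₁] at h₂ ha
  split_ifs at h₂ with h₃ h₄ h₄
  · rw [h₃, ← h₄]
  · exact he' _ _ _ (lt_of_le_of_ne ha h₃) (lt_of_le_of_ne hb h₄) (by omega)

theorem bounded {Q : α → Prop} {f : α → ℕ} {t : α → W.T} (hQ : g.Tm Q) (hf : g.Tm f)
    (ht : g.Tm t) (hi : ∀ x y, Q x → Q y → f x = f y → x = y) : ∃ b, ∀ x, Q x → t x < b := by
  obtain ⟨s, hs, h⟩ := tm_choice (Q := fun (k : ℕ) (c : W.T) => ∀ x, Q x → f x = k → c = t x)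
    (by fun_prop) fun k => by
      by_cases h : ∃ x, Q x ∧ f x = k
      · obtain ⟨x, hx, e⟩ := h
        exact ⟨t x, fun y hy e' => by rw [hi x y hx hy (e.trans e'.symm)]⟩
      · exact ⟨Classical.choice inferInstance, fun x hx e => absurd ⟨x, hx, e⟩ h⟩
  obtain ⟨b, hb⟩ := reg hs
  exact ⟨b, fun x hx => h _ x hx rfl ▸ hb (f x)⟩

instance : NoMaxOrder W.T := ⟨fun a => by
  obtain ⟨b, hb⟩ := reg (t := fun _ => a) (by fun_prop)
  exact ⟨b, hb 0⟩⟩

noncomputable instance : OrderBot W.T := WellFoundedLT.toOrderBot W.T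

/-- Closure points inside a club. -/
theorem exists_closure {C : W.T → Prop} (hC : g.Tm C) (unb : ∀ a, ∃ c, C c ∧ a < c)
    (cl : ∀ d, (∃ a, a < d) → (∀ a < d, ∃ c, C c ∧ a < c ∧ c < d) → C d)
    {R : W.T → W.T → Prop} (hR : g.Tm (fun z : W.T × W.T => R z.1 z.2))
    (tot : ∀ a, ∃ b, ∀ c, b ≤ c → R a c) (a : W.T) :
    ∃ d, C d ∧ a < d ∧ ∀ x < d, ∃ y z, x < y ∧ y < z ∧ z < d ∧ R y z := by
  obtain ⟨H, hH, h⟩ := tm_choice (Q := fun a b => C b ∧ a < b ∧ R a b) (by fun_prop) fun a => by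
    obtain ⟨b, hb⟩ := tot a
    obtain ⟨c, hc, h⟩ := unb (max a b)
    exact ⟨c, hc, (le_max_left _ _).trans_lt h, hb c ((le_max_right _ _).trans h.le)⟩
  have ht : g.Tm (fun n : ℕ => H^[n] a) := by fun_prop
  obtain ⟨d, hd, hmin⟩ := wellFounded_lt.has_min {b | ∀ n, H^[n] a < b} (reg ht)
  have key : ∀ x < d, ∃ n, x < H^[n] a := fun x hx => by
    have : ¬ ∀ n, H^[n] a < x := fun h' => hmin x h' hx
    push Not at this
    obtain ⟨n, hn⟩ := this
    exact ⟨n + 1, by rw [Function.iterate_succ_apply']; exact hn.trans_lt (h _).2.1⟩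
  have hd' : ∀ n, H (H^[n] a) < d := fun n => by
    have := hd (n + 1)
    rwa [Function.iterate_succ_apply'] at this
  refine ⟨d, cl d ⟨a, hd 0⟩ fun x hx => ?_, hd 0, fun x hx => ?_⟩
  · obtain ⟨n, hn⟩ := key x hx
    exact ⟨_, (h _).1, hn.trans (h _).2.1, hd' n⟩
  · obtain ⟨n, hn⟩ := key x hx
    exact ⟨_, _, hn, (h _).2.1, hd' n, (h _).2.2⟩

end

end W1

end Gen

end Pool.Agent.MP_c6cf52_lc
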